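import Pool.Agent.Lib.MP_9701dc_gt.DetBound

set_option autoImplicit false

namespace Pool.Agent.Lib.MP_9701dc_gt

open Finset Matrix

variable {n d : ℕ}

/-- the index type of rows -/
abbrev Row (n d : ℕ) (v : Fin n) := {σ // σ ∈ rows n d v}

theorem inc_support {v : Fin n} {σ τ : Finset (Fin n)} (hτ : τ.card = d + 1) (hv : v ∉ τ)
    (h : inc σ τ ≠ 0) : σ ∈ rows n d v := by
  obtain ⟨u, hu, rfl⟩ := inc_ne_zero h
  rw [mem_rows]
  rw [card_insert_of_notMem hu] at hτ
  exact ⟨by omega, fun h' => hv (mem_insert_of_mem h')⟩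

theorem sum_rows_gram {v : Fin n} {τ τ' : Finset (Fin n)} (hτ : τ.card = d + 1) (hv : v ∉ τ) :
    ∑ σ : {σ // σ ∈ rows n d v}, (inc σ.1 τ : ℝ) * (inc σ.1 τ' : ℝ) = (gram τ τ' : ℝ) := by
  rw [Finset.sum_coe_sort (rows n d v) (fun σ => (inc σ τ : ℝ) * (inc σ τ' : ℝ))]
  unfold gram
  push_cast
  refine sum_subset (subset_univ _) fun σ _ hσ => ?_
  have : inc σ τ = 0 := by
    by_contra hc
    exact hσ (inc_support hτ hv hc)
  rw [this]; simp

theorem sum_rows_sq {v : Fin n} {τ : Finset (Fin n)} (hτ : τ.card = d + 1) (hv : v ∈ τ) :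
    ∑ σ : {σ // σ ∈ rows n d v}, (inc σ.1 τ : ℝ) * (inc σ.1 τ : ℝ) = 1 := by
  have hmem : τ.erase v ∈ rows n d v := by
    rw [mem_rows, card_erase_of_mem hv, hτ]
    exact ⟨by omega, by simp⟩
  rw [sum_eq_single ⟨τ.erase v, hmem⟩]
  · have : inc (τ.erase v) τ = sg v (τ.erase v) := by
      conv_lhs => rw [← insert_erase hv]
      rw [erase_insert_eq_erase, erase_idem]
      exact inc_insert (by simp)
    have h2 := sg_sq v (τ.erase v)
    simp only [this]
    exact_mod_cast h2
  · intro σ _ hne
    have : inc σ.1 τ = 0 := by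
      by_contra hc
      obtain ⟨u, hu, he⟩ := inc_ne_zero hc
      have hσ := (mem_rows.mp σ.2).2
      have huv : u = v := by
        rw [he, mem_insert] at hv
        rcases hv with h | h
        · exact h.symm
        · exact absurd h hσ
      subst huv
      apply hne
      apply Subtype.ext
      simp only [he, erase_insert hu]
    rw [this]; simp
  · intro h
    exact absurd (mem_univ _) h

theorem sum_image_family {v : Fin n} {J : Type*} [Fintype J] (T : J → Finset (Fin n))
    (hT : Function.Injective T) (F : Finset (Fin n) → ℝ) :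
    ∑ j, (if v ∈ T j then 0 else F (T j)) =
      ∑ τ ∈ (univ.filter (fun i => v ∉ T i)).image T, F τ := by
  rw [sum_image (fun a _ b _ h => hT h), sum_filter]
  refine sum_congr rfl fun j _ => ?_
  by_cases h : v ∈ T j <;> simp [h]

theorem det_bound (hd : 2 ≤ d) (v : Fin n)
    (T : Row n d v → Finset (Fin n)) (hT : Function.Injective T)
    (hc : ∀ i, (T i).card = d + 1)
    (A : Matrix (Row n d v) (Row n d v) ℝ)
    (hA : ∀ i σ, A i σ = (inc σ.1 (T i) : ℝ)) (hdet : A.det ≠ 0) :
    Real.log (A.det ^ 2) ≤ (rows n d v).card *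
      (Real.log (d + 1) + 2 / 5 * Real.log 2 - 3 / 5 * Real.log 3) := by
  classical
  have hD : (0 : ℝ) < (d : ℝ) + 1 := by positivity
  have hDne : ((d : ℝ) + 1) ≠ 0 := hD.ne'
  set a : Row n d v → ℝ := fun i => if v ∈ T i then 1 else (d : ℝ) + 1 with ha
  have hapos : ∀ i, 0 < a i := by
    intro i
    simp only [ha]
    split_ifs
    · exact one_pos
    · exact hD
  set B : Matrix (Row n d v) (Row n d v) ℝ := diagonal (fun i => (Real.sqrt (a i))⁻¹) * A with hB
  have hBe : ∀ i σ, B i σ = (Real.sqrt (a i))⁻¹ * A i σ := by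
    intro i σ
    rw [hB, diagonal_mul]
  have hBdet : B.det ≠ 0 := by
    rw [hB, det_mul, det_diagonal]
    refine mul_ne_zero (prod_ne_zero_iff.mpr fun i _ => ?_) hdet
    exact inv_ne_zero (Real.sqrt_ne_zero'.mpr (hapos i))
  set S : Matrix (Row n d v) (Row n d v) ℝ := B * Bᴴ with hS
  have hSpos : S.PosDef := by
    refine PosDef.mul_conjTranspose_self B ?_
    exact vecMul_injective_of_isUnit ((isUnit_iff_isUnit_det B).mpr (isUnit_iff_ne_zero.mpr hBdet))
  have hSe : ∀ i j, S i j = (Real.sqrt (a i))⁻¹ * (Real.sqrt (a j))⁻¹ *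
      ∑ σ : Row n d v, (inc σ.1 (T i) : ℝ) * (inc σ.1 (T j) : ℝ) := by
    intro i j
    rw [hS, mul_apply, mul_sum]
    refine sum_congr rfl fun σ _ => ?_
    rw [conjTranspose_apply, star_trivial, hBe, hBe, hA, hA]
    ring
  have hS1 : ∀ i, v ∈ T i → S i i = 1 := by
    intro i hi
    rw [hSe, sum_rows_sq (hc i) hi]
    simp [ha, hi]
  have hS2 : ∀ i j, v ∉ T i → v ∉ T j → S i j = (gram (T i) (T j) : ℝ) / (d + 1) := by
    intro i j hi hj
    rw [hSe, sum_rows_gram (hc i) hi]
    simp only [ha, hi, hj, if_false]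
    rw [← mul_inv, Real.mul_self_sqrt hD.le]
    ring
  set F : Finset (Finset (Fin n)) := (univ.filter (fun i => v ∉ T i)).image T with hF
  have hFm : ∀ τ ∈ F, τ.card = d + 1 ∧ v ∉ τ := by
    intro τ hτ
    rw [hF, mem_image] at hτ
    obtain ⟨i, hi, rfl⟩ := hτ
    rw [mem_filter] at hi
    exact ⟨hc i, hi.2⟩
  have hFcard : F.card = (univ.filter (fun i => v ∉ T i)).card := card_image_of_injective _ hT
  have hcardJ : Fintype.card (Row n d v) = (rows n d v).card := Fintype.card_coe _
  have hle : F.card ≤ (rows n d v).card := by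
    rw [hFcard, ← hcardJ]
    exact card_le_univ _
  set N : ℝ := (F.card : ℝ) with hN
  set R : ℝ := ((rows n d v).card : ℝ) with hR
  have hNR : N ≤ R := by
    rw [hN, hR]; exact_mod_cast hle
  -- the comparison function
  set g : ℝ → ℝ := fun t => N * fa t + R * fb t with hg
  set g' : ℝ → ℝ := fun t => N * (t * (4 * t ^ 2 + t - 15) / ((3 - 2 * t) ^ 2 * (1 + t) ^ 2)) +
      R * (3 * t * (3 - t) / ((3 - 2 * t) ^ 2 * (1 + t) ^ 2)) with hg'
  -- the trial vectors
  set y : ℝ → ℝ := fun t => (3 + t) / ((3 - 2 * t) * (1 + t)) with hy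
  set z : ℝ → Row n d v → Row n d v → ℝ := fun t i j =>
    if v ∈ T i then (if i = j then 1 else 0)
    else y t * (if v ∈ T j then 0 else trial (coef F d t) (T i) (T j)) with hz
  have key : Real.log S.det ≤ g 1 := by
    refine log_det_le S hSpos g g' ?_ ?_ ?_ z ?_
    · simp [hg, fa_zero, fb_zero]
    · exact (continuousOn_const.mul fa_cont).add (continuousOn_const.mul fb_cont)
    · intro t ht
      exact ((fa_deriv ht.1 ht.2).const_mul N).add ((fb_deriv ht.1 ht.2).const_mul R)
    · intro t ht
      -- each term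
      have t1 : ∀ i, v ∈ T i → 2 * z t i i - ((1 - t) * ∑ j, z t i j ^ 2 +
          t * ∑ j, ∑ k, z t i j * S j k * z t i k) = 1 := by
        intro i hi
        have e1 : ∀ j, z t i j = if i = j then 1 else 0 := by
          intro j; simp [hz, hi]
        simp only [e1]
        simp [hS1 i hi]
        ring
      have t2 : ∀ i, v ∉ T i → 2 * z t i i - ((1 - t) * ∑ j, z t i j ^ 2 +
          t * ∑ j, ∑ k, z t i j * S j k * z t i k) = 2 * y t - y t ^ 2 *
          ((1 - t) * ∑ τ' ∈ F, trial (coef F d t) (T i) τ' ^ 2 +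
          t / (d + 1) * ∑ τ' ∈ F, ∑ τ'' ∈ F, trial (coef F d t) (T i) τ' * (gram τ' τ'' : ℝ) *
          trial (coef F d t) (T i) τ'') := by
        intro i hi
        have e1 : ∀ j, z t i j = y t * (if v ∈ T j then 0 else trial (coef F d t) (T i) (T j)) := by
          intro j; simp [hz, hi]
        have e2 : z t i i = y t := by
          rw [e1, if_neg hi, trial_self, mul_one]
        have e3 : ∑ j, z t i j ^ 2 = y t ^ 2 * ∑ τ' ∈ F, trial (coef F d t) (T i) τ' ^ 2 := by
          rw [hF, ← sum_image_family T hT (fun τ' => trial (coef F d t) (T i) τ' ^ 2), mul_sum]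
          refine sum_congr rfl fun j _ => ?_
          rw [e1]
          by_cases h : v ∈ T j <;> simp [h, mul_pow]
        have e4 : ∑ j, ∑ k, z t i j * S j k * z t i k = y t ^ 2 / (d + 1) *
            ∑ τ' ∈ F, ∑ τ'' ∈ F, trial (coef F d t) (T i) τ' * (gram τ' τ'' : ℝ) *
            trial (coef F d t) (T i) τ'' := by
          have e5 : ∀ j, ∑ k, z t i j * S j k * z t i k = y t ^ 2 / (d + 1) *
              (if v ∈ T j then 0 else ∑ τ'' ∈ F, trial (coef F d t) (T i) (T j) *
                (gram (T j) τ'' : ℝ) * trial (coef F d t) (T i) τ'') := by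
            intro j
            by_cases h : v ∈ T j
            · simp [e1, h]
            · rw [if_neg h]
              conv_rhs => rw [hF, ← sum_image_family T hT (fun τ'' =>
                trial (coef F d t) (T i) (T j) * (gram (T j) τ'' : ℝ) *
                trial (coef F d t) (T i) τ''), mul_sum]
              refine sum_congr rfl fun k _ => ?_
              by_cases hk : v ∈ T k
              · simp [e1, hk]
              · rw [e1, e1, if_neg h, if_neg hk, if_neg hk, hS2 j k h hk]
                ring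
          rw [sum_congr rfl (fun j _ => e5 j), ← mul_sum]
          congr 1
          rw [sum_image_family T hT (fun τ' => ∑ τ'' ∈ F, trial (coef F d t) (T i) τ' *
                (gram τ' τ'' : ℝ) * trial (coef F d t) (T i) τ'')]
        rw [e2, e3, e4]
        ring
      -- sum up
      have t3 : ∑ i, (2 * z t i i - ((1 - t) * ∑ j, z t i j ^ 2 +
          t * ∑ j, ∑ k, z t i j * S j k * z t i k)) =
          (R - N) + (2 * y t * N - y t ^ 2 * ∑ τ ∈ F,
          ((1 - t) * ∑ τ' ∈ F, trial (coef F d t) τ τ' ^ 2 +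
          t / (d + 1) * ∑ τ' ∈ F, ∑ τ'' ∈ F, trial (coef F d t) τ τ' * (gram τ' τ'' : ℝ) *
          trial (coef F d t) τ τ'')) := by
        rw [← sum_filter_add_sum_filter_not univ (fun i => v ∈ T i)]
        congr 1
        · rw [sum_congr rfl (fun i hi => t1 i (mem_filter.mp hi).2)]
          simp only [sum_const, nsmul_eq_mul, mul_one]
          have := card_filter_add_card_filter_not (s := (univ : Finset (Row n d v))) (fun i => v ∈ T i)
          rw [card_univ, hcardJ] at this
          rw [hR, hN, hFcard, ← this]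
          push_cast; ring
        · rw [sum_congr rfl (fun i hi => t2 i (mem_filter.mp hi).2), sum_sub_distrib, ← mul_sum]
          congr 1
          · simp only [sum_const, nsmul_eq_mul]
            rw [hN, hFcard]; ring
          · rw [hF, sum_image (fun a _ b _ h => hT h), mul_sum]
      rw [t3]
      have en := energy hd hFm hle ht.1 ht.2
      have fin := final_ineq N R _ t ht.1 ht.2 en
      rw [hcardJ]
      simp only [hg', hy]
      linarith
  -- from S to A
  have hdetS : S.det = (∏ i, (a i)⁻¹) * A.det ^ 2 := by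
    rw [hS, det_mul, det_conjTranspose, star_trivial, hB, det_mul, det_diagonal]
    have : (∏ i, (a i)⁻¹) = (∏ i, (Real.sqrt (a i))⁻¹) * (∏ i, (Real.sqrt (a i))⁻¹) := by
      rw [← prod_mul_distrib]
      refine prod_congr rfl fun i _ => ?_
      rw [← mul_inv, Real.mul_self_sqrt (hapos i).le]
    rw [this]; ring
  have hprod : ∏ i, (a i)⁻¹ = ((d + 1 : ℝ) ^ F.card)⁻¹ := by
    rw [prod_inv_distrib]
    congr 1
    simp only [ha]
    rw [prod_ite]
    simp only [prod_const_one, one_mul, prod_const]
    rw [hFcard]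
  have hA2 : (0 : ℝ) < A.det ^ 2 := by positivity
  have hlog : Real.log (A.det ^ 2) = Real.log S.det + N * Real.log (d + 1) := by
    have hp : Real.log ((d + 1 : ℝ) ^ F.card) = N * Real.log (d + 1) := Real.log_pow _ _
    rw [hdetS, hprod, Real.log_mul (by positivity) hA2.ne', Real.log_inv, hp]
    ring
  rw [hlog]
  have hg1 : g 1 = N * fa 1 + R * fb 1 := rfl
  rw [hg1, fa_one, fb_one] at key
  have hpos : 0 ≤ Real.log (d + 1) + ((23 / 125) * Real.log 2 - (102 / 125) * Real.log 3 - 3 / 25) := by
    have h3 : Real.log 3 ≤ Real.log (d + 1) := by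
      apply Real.log_le_log (by norm_num)
      have : (2 : ℝ) ≤ d := by exact_mod_cast hd
      linarith
    have l2 := Real.log_two_gt_d9
    have l3 : Real.log 2 ≤ Real.log 3 := Real.log_le_log (by norm_num) (by norm_num)
    linarith
  have := mul_le_mul_of_nonneg_right hNR hpos
  linarith

end Pool.Agent.Lib.MP_9701dc_gt
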