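import Mathlib

set_option autoImplicit false

namespace Pool.Agent.Lib.MP_9701dc_gt

open Finset Matrix

variable {ι : Type*} [Fintype ι] [DecidableEq ι]

theorem spectral_real (S : Matrix ι ι ℝ) (hS : S.IsHermitian) :
    ∃ (U : Matrix ι ι ℝ), U * Uᵀ = 1 ∧ Uᵀ * U = 1 ∧ S = U * diagonal hS.eigenvalues * Uᵀ := by
  refine ⟨(hS.eigenvectorUnitary : Matrix ι ι ℝ), ?_, ?_, ?_⟩
  · have := Unitary.mul_star_self_of_mem hS.eigenvectorUnitary.2
    simpa [star_eq_conjTranspose] using this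
  · have := Unitary.star_mul_self_of_mem hS.eigenvectorUnitary.2
    simpa [star_eq_conjTranspose] using this
  · have := hS.spectral_theorem
    rw [Unitary.conjStarAlgAut_apply] at this
    exact this

theorem resolvent_ge (S : Matrix ι ι ℝ) (μ : ι → ℝ) (U : Matrix ι ι ℝ) (h1 : U * Uᵀ = 1)
    (h2 : Uᵀ * U = 1) (hS : S = U * diagonal μ * Uᵀ) (t : ℝ)
    (hpos : ∀ p, 0 < 1 - t + t * μ p) (z : ι → ι → ℝ) :
    ∑ i, (2 * z i i - ((1 - t) * ∑ j, z i j ^ 2 + t * ∑ j, ∑ k, z i j * S j k * z i k)) ≤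
      ∑ p, 1 / (1 - t + t * μ p) := by
  have hrow : ∀ p, ∑ i, U i p ^ 2 = 1 := by
    intro p
    have := congrFun (congrFun h2 p) p
    simpa [Matrix.mul_apply, sq] using this
  have e1 : ∑ p, 1 / (1 - t + t * μ p) = ∑ i, ∑ p, U i p ^ 2 / (1 - t + t * μ p) := by
    rw [Finset.sum_comm]
    refine Finset.sum_congr rfl fun p _ => ?_
    rw [← Finset.sum_div, hrow]
  rw [e1]
  refine Finset.sum_le_sum fun i _ => ?_
  -- coordinates
  set ζ : ι → ℝ := Uᵀ *ᵥ (z i) with hζ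
  have hz : z i = U *ᵥ ζ := by
    rw [hζ, Matrix.mulVec_mulVec, h1, Matrix.one_mulVec]
  have a1 : z i i = ∑ p, U i p * ζ p := by
    conv_lhs => rw [hz]
    rfl
  have a2 : ∑ j, z i j ^ 2 = ∑ p, ζ p ^ 2 := by
    have : z i ⬝ᵥ z i = ζ ⬝ᵥ ζ := by
      conv_rhs => rw [hζ]
      rw [Matrix.dotProduct_mulVec, Matrix.vecMul_transpose, Matrix.mulVec_mulVec, h1,
        Matrix.one_mulVec]
    simpa [dotProduct, sq] using this
  have a3 : ∑ j, ∑ k, z i j * S j k * z i k = ∑ p, μ p * ζ p ^ 2 := by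
    have h : z i ⬝ᵥ (S *ᵥ z i) = ζ ⬝ᵥ (diagonal μ *ᵥ ζ) := by
      rw [hS, ← Matrix.mulVec_mulVec, ← Matrix.mulVec_mulVec, ← hζ, Matrix.dotProduct_mulVec]
      congr 1
      rw [hζ, ← Matrix.vecMul_transpose, Matrix.transpose_transpose]
    have e2 : z i ⬝ᵥ (S *ᵥ z i) = ∑ j, ∑ k, z i j * S j k * z i k := by
      simp only [dotProduct, mulVec, Finset.mul_sum, mul_assoc]
    have e3 : ζ ⬝ᵥ (diagonal μ *ᵥ ζ) = ∑ p, μ p * ζ p ^ 2 := by
      simp only [dotProduct, Matrix.mulVec_diagonal]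
      exact Finset.sum_congr rfl fun p _ => by ring
    rw [← e2, h, e3]
  rw [a1, a2, a3]
  have e4 : 2 * ∑ p, U i p * ζ p - ((1 - t) * ∑ p, ζ p ^ 2 + t * ∑ p, μ p * ζ p ^ 2) =
      ∑ p, (2 * (U i p * ζ p) - (1 - t + t * μ p) * ζ p ^ 2) := by
    rw [Finset.mul_sum, Finset.mul_sum, Finset.mul_sum, ← Finset.sum_add_distrib,
      ← Finset.sum_sub_distrib]
    exact Finset.sum_congr rfl fun p _ => by ring
  rw [e4]
  refine Finset.sum_le_sum fun p _ => ?_
  have hp := hpos p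
  rw [le_div_iff₀ hp]
  nlinarith [sq_nonneg (U i p - (1 - t + t * μ p) * ζ p)]

theorem log_det_le (S : Matrix ι ι ℝ) (hS : S.PosDef) (g g' : ℝ → ℝ) (hg0 : g 0 = 0)
    (hgc : ContinuousOn g (Set.Icc 0 1)) (hg : ∀ t ∈ Set.Ioo (0:ℝ) 1, HasDerivAt g (g' t) t)
    (z : ℝ → ι → ι → ℝ)
    (hz : ∀ t ∈ Set.Ioo (0:ℝ) 1, (Fintype.card ι : ℝ) - t * g' t ≤
      ∑ i, (2 * z t i i - ((1 - t) * ∑ j, z t i j ^ 2 + t * ∑ j, ∑ k, z t i j * S j k * z t i k))) :
    Real.log S.det ≤ g 1 := by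
  obtain ⟨U, h1, h2, hU⟩ := spectral_real S hS.1
  set μ := hS.1.eigenvalues with hμ
  have hpos : ∀ p, 0 < μ p := fun p => hS.eigenvalues_pos p
  have hdet : S.det = ∏ p, μ p := by
    rw [hS.1.det_eq_prod_eigenvalues]; rfl
  have hposh : ∀ t ∈ Set.Icc (0:ℝ) 1, ∀ p, 0 < 1 - t + t * μ p := by
    intro t ht p
    rcases eq_or_lt_of_le ht.1 with h | h
    · rw [← h]; norm_num
    · have := mul_pos h (hpos p)
      linarith [ht.2]
  set f : ℝ → ℝ := fun t => ∑ p, Real.log (1 - t + t * μ p) with hf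
  have hf0 : f 0 = 0 := by simp [hf]
  have hf1 : f 1 = Real.log S.det := by
    rw [hdet, Real.log_prod (fun p _ => (hpos p).ne')]
    simp [hf]
  have hfc : ContinuousOn f (Set.Icc 0 1) := by
    refine continuousOn_finsetSum _ fun p _ => ?_
    refine ContinuousOn.log (by fun_prop) fun t ht => (hposh t ht p).ne'
  have hfd : ∀ t ∈ Set.Ioo (0:ℝ) 1, HasDerivAt f (∑ p, (μ p - 1) / (1 - t + t * μ p)) t := by
    intro t ht
    refine HasDerivAt.fun_sum fun p _ => ?_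
    have hne := (hposh t ⟨ht.1.le, ht.2.le⟩ p).ne'
    have h3 : HasDerivAt (fun t : ℝ => 1 - t + t * μ p) (μ p - 1) t := by
      have h4 := ((hasDerivAt_id t).const_sub 1).add ((hasDerivAt_id t).mul_const (μ p))
      have e0 : μ p - 1 = -1 + 1 * μ p := by ring
      rw [e0]
      exact h4
    exact h3.log hne
  -- comparison
  have hmono : MonotoneOn (fun t => g t - f t) (Set.Icc 0 1) := by
    refine monotoneOn_of_deriv_nonneg (convex_Icc 0 1) (hgc.sub hfc) ?_ ?_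
    · intro t ht
      rw [interior_Icc] at ht
      exact ((hg t ht).sub (hfd t ht)).differentiableAt.differentiableWithinAt
    · intro t ht
      rw [interior_Icc] at ht
      have := ((hg t ht).sub (hfd t ht)).deriv
      have e : (fun t => g t - f t) = g - f := rfl
      rw [e, this]
      have hres := (hz t ht).trans
        (resolvent_ge S μ U h1 h2 hU t (hposh t ⟨ht.1.le, ht.2.le⟩) (z t))
      have hcard : (Fintype.card ι : ℝ) = ∑ p : ι, (1 : ℝ) := by simp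
      have e5 : t * ∑ p, (μ p - 1) / (1 - t + t * μ p) =
          (Fintype.card ι : ℝ) - ∑ p, 1 / (1 - t + t * μ p) := by
        rw [hcard, ← Finset.sum_sub_distrib, Finset.mul_sum]
        refine Finset.sum_congr rfl fun p _ => ?_
        have hne := (hposh t ⟨ht.1.le, ht.2.le⟩ p).ne'
        field_simp
        ring
      have : t * ∑ p, (μ p - 1) / (1 - t + t * μ p) ≤ t * g' t := by
        rw [e5]; linarith
      have := le_of_mul_le_mul_left this ht.1
      linarith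
  have := hmono (Set.left_mem_Icc.mpr zero_le_one) (Set.right_mem_Icc.mpr zero_le_one) zero_le_one
  simp only [hg0, hf0, hf1] at this
  linarith

end Pool.Agent.Lib.MP_9701dc_gt
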