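import Pool.Agent.Lib.MP_9701dc_gt.Energy
import Pool.Agent.Lib.MP_9701dc_gt.LogDet

set_option autoImplicit false

namespace Pool.Agent.Lib.MP_9701dc_gt

open Finset Matrix

/-- coefficient of the number of columns -/
noncomputable def fa (t : ℝ) : ℝ :=
  (23 / 125) * Real.log (1 + t) - (12 / 25) / (1 + t) + (102 / 125) * Real.log (3 - 2 * t)
    - (27 / 50) / (3 - 2 * t) + (12 / 25 + 9 / 50 - (102 / 125) * Real.log 3)

/-- coefficient of the number of rows -/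
noncomputable def fb (t : ℝ) : ℝ :=
  (27 / 125) * Real.log (1 + t) + (12 / 25) / (1 + t) - (27 / 125) * Real.log (3 - 2 * t)
    + (27 / 50) / (3 - 2 * t) + (-(12 / 25) + (27 / 125) * Real.log 3 - 9 / 50)

theorem fa_zero : fa 0 = 0 := by
  unfold fa; norm_num; ring

theorem fb_zero : fb 0 = 0 := by
  unfold fb; norm_num

theorem fa_one : fa 1 = (23 / 125) * Real.log 2 - (102 / 125) * Real.log 3 - 3 / 25 := by
  unfold fa; norm_num; ring

theorem fb_one : fb 1 = (27 / 125) * Real.log 2 + (27 / 125) * Real.log 3 + 3 / 25 := by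
  unfold fb; norm_num; ring

theorem fa_deriv {t : ℝ} (h0 : 0 < t) (h1 : t < 1) :
    HasDerivAt fa (t * (4 * t ^ 2 + t - 15) / ((3 - 2 * t) ^ 2 * (1 + t) ^ 2)) t := by
  have p1 : 1 + t ≠ 0 := by linarith
  have p2 : 3 - 2 * t ≠ 0 := by linarith
  have d1 : HasDerivAt (fun x : ℝ => 1 + x) 1 t := by
    simpa using (hasDerivAt_id t).const_add 1
  have d2 : HasDerivAt (fun x : ℝ => 3 - 2 * x) (-2) t := by
    simpa using ((hasDerivAt_id t).const_mul 2).const_sub 3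
  have e1 := (d1.log p1).const_mul (23 / 125 : ℝ)
  have e2 := (d1.fun_inv p1).const_mul (12 / 25 : ℝ)
  have e3 := (d2.log p2).const_mul (102 / 125 : ℝ)
  have e4 := (d2.fun_inv p2).const_mul (27 / 50 : ℝ)
  have e5 := (((e1.sub e2).add e3).sub e4).add_const (12 / 25 + 9 / 50 - (102 / 125) * Real.log 3)
  have ef : fa = fun x => (23 / 125) * Real.log (1 + x) - (12 / 25) * (1 + x)⁻¹
      + (102 / 125) * Real.log (3 - 2 * x) - (27 / 50) * (3 - 2 * x)⁻¹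
      + (12 / 25 + 9 / 50 - (102 / 125) * Real.log 3) := by
    funext x
    unfold fa
    ring
  rw [ef]
  refine HasDerivAt.congr_deriv e5 ?_
  have p3 : 3 - t * 2 ≠ 0 := by linarith
  obtain ⟨b, hb⟩ : ∃ b, b = 3 - 2 * t := ⟨_, rfl⟩
  have ht : t = (3 - b) / 2 := by linarith
  rw [← hb] at p2 ⊢
  have p4 : 1 + t = (5 - b) / 2 := by linarith
  rw [p4] at p1 ⊢
  have p5 : 5 - b ≠ 0 := by
    intro h
    rw [h] at p1
    simp at p1
  rw [ht]
  field_simp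
  ring

theorem fb_deriv {t : ℝ} (h0 : 0 < t) (h1 : t < 1) :
    HasDerivAt fb (3 * t * (3 - t) / ((3 - 2 * t) ^ 2 * (1 + t) ^ 2)) t := by
  have p1 : 1 + t ≠ 0 := by linarith
  have p2 : 3 - 2 * t ≠ 0 := by linarith
  have d1 : HasDerivAt (fun x : ℝ => 1 + x) 1 t := by
    simpa using (hasDerivAt_id t).const_add 1
  have d2 : HasDerivAt (fun x : ℝ => 3 - 2 * x) (-2) t := by
    simpa using ((hasDerivAt_id t).const_mul 2).const_sub 3
  have e1 := (d1.log p1).const_mul (27 / 125 : ℝ)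
  have e2 := (d1.fun_inv p1).const_mul (12 / 25 : ℝ)
  have e3 := (d2.log p2).const_mul (27 / 125 : ℝ)
  have e4 := (d2.fun_inv p2).const_mul (27 / 50 : ℝ)
  have e5 := (((e1.add e2).sub e3).add e4).add_const (-(12 / 25) + (27 / 125) * Real.log 3 - 9 / 50)
  have ef : fb = fun x => (27 / 125) * Real.log (1 + x) + (12 / 25) * (1 + x)⁻¹
      - (27 / 125) * Real.log (3 - 2 * x) + (27 / 50) * (3 - 2 * x)⁻¹
      + (-(12 / 25) + (27 / 125) * Real.log 3 - 9 / 50) := by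
    funext x
    unfold fb
    ring
  rw [ef]
  refine HasDerivAt.congr_deriv e5 ?_
  have p3 : 3 - t * 2 ≠ 0 := by linarith
  obtain ⟨b, hb⟩ : ∃ b, b = 3 - 2 * t := ⟨_, rfl⟩
  have ht : t = (3 - b) / 2 := by linarith
  rw [← hb] at p2 ⊢
  have p4 : 1 + t = (5 - b) / 2 := by linarith
  rw [p4] at p1 ⊢
  have p5 : 5 - b ≠ 0 := by
    intro h
    rw [h] at p1
    simp at p1
  rw [ht]
  field_simp
  ring

theorem fa_cont : ContinuousOn fa (Set.Icc 0 1) := by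
  unfold fa
  have h1 : ∀ x ∈ Set.Icc (0 : ℝ) 1, 1 + x ≠ 0 := fun x hx => by linarith [hx.1]
  have h2 : ∀ x ∈ Set.Icc (0 : ℝ) 1, 3 - 2 * x ≠ 0 := fun x hx => by linarith [hx.2]
  fun_prop (disch := assumption)

theorem fb_cont : ContinuousOn fb (Set.Icc 0 1) := by
  unfold fb
  have h1 : ∀ x ∈ Set.Icc (0 : ℝ) 1, 1 + x ≠ 0 := fun x hx => by linarith [hx.1]
  have h2 : ∀ x ∈ Set.Icc (0 : ℝ) 1, 3 - 2 * x ≠ 0 := fun x hx => by linarith [hx.2]
  fun_prop (disch := assumption)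

/-- the final pointwise inequality -/
theorem final_ineq (N R E t : ℝ) (ht0 : 0 < t) (ht1 : t < 1)
    (hE : E ≤ N - t ^ 2 * (R * (2 / (3 + t)) + (N - R) * ((15 - t) / (3 + t) ^ 2))) :
    N - t * (N * (t * (4 * t ^ 2 + t - 15) / ((3 - 2 * t) ^ 2 * (1 + t) ^ 2)) +
      R * (3 * t * (3 - t) / ((3 - 2 * t) ^ 2 * (1 + t) ^ 2))) ≤
    2 * ((3 + t) / ((3 - 2 * t) * (1 + t))) * N - ((3 + t) / ((3 - 2 * t) * (1 + t))) ^ 2 * E := by
  have p1 : 0 < 1 + t := by linarith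
  have p2 : 0 < 3 - 2 * t := by linarith
  have p3 : 0 < 3 + t := by linarith
  have h := mul_le_mul_of_nonneg_left hE (sq_nonneg ((3 + t) / ((3 - 2 * t) * (1 + t))))
  have key : N - t * (N * (t * (4 * t ^ 2 + t - 15) / ((3 - 2 * t) ^ 2 * (1 + t) ^ 2)) +
      R * (3 * t * (3 - t) / ((3 - 2 * t) ^ 2 * (1 + t) ^ 2))) =
      2 * ((3 + t) / ((3 - 2 * t) * (1 + t))) * N - ((3 + t) / ((3 - 2 * t) * (1 + t))) ^ 2 *
      (N - t ^ 2 * (R * (2 / (3 + t)) + (N - R) * ((15 - t) / (3 + t) ^ 2))) := by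
    obtain ⟨b, hb⟩ : ∃ b, b = 3 - 2 * t := ⟨_, rfl⟩
    rw [← hb] at p2 ⊢
    field_simp
    rw [hb]
    ring
  rw [key]
  linarith

end Pool.Agent.Lib.MP_9701dc_gt
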