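import Pool.Agent.Lib.MP_9701dc_gt.Incidence

set_option autoImplicit false

namespace Pool.Agent.Lib.MP_9701dc_gt

open Finset

variable {n : ℕ}

/-- number of members of the family containing `σ` -/
def deg (S : Finset (Finset (Fin n))) (σ : Finset (Fin n)) : ℕ := (S.filter (σ ⊆ ·)).card

/-- members adjacent to `τ` -/
def adj (S : Finset (Finset (Fin n))) (d : ℕ) (τ : Finset (Fin n)) : Finset (Finset (Fin n)) :=
  S.filter (fun τ' => τ' ≠ τ ∧ (τ ∩ τ').card = d)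

/-- the trial vector -/
noncomputable def trial (c : Finset (Fin n) → ℝ) (τ τ' : Finset (Fin n)) : ℝ :=
  if τ' = τ then 1 else -(c (τ ∩ τ') * (gram τ τ' : ℝ))

theorem trial_self (c : Finset (Fin n) → ℝ) (τ : Finset (Fin n)) : trial c τ τ = 1 := by
  simp [trial]

theorem trial_ne (c : Finset (Fin n) → ℝ) {τ τ' : Finset (Fin n)} (h : τ' ≠ τ) :
    trial c τ τ' = -(c (τ ∩ τ') * (gram τ τ' : ℝ)) := by
  simp [trial, h]

theorem trial_zero (c : Finset (Fin n) → ℝ) {d : ℕ} {τ τ' : Finset (Fin n)} (h : τ' ≠ τ)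
    (hτ : τ.card = d + 1) (hτ' : τ'.card = d + 1) (hc : (τ ∩ τ').card ≠ d) :
    trial c τ τ' = 0 := by
  rw [trial_ne c h]
  have : gram τ τ' = 0 := by
    by_contra h0
    exact hc ((adj_iff hτ hτ' h.symm).mpr h0)
  rw [this]; simp

theorem gram_sq_one {d : ℕ} {τ τ' : Finset (Fin n)} (h : τ' ≠ τ)
    (hτ : τ.card = d + 1) (hτ' : τ'.card = d + 1) (hc : (τ ∩ τ').card = d) :
    (gram τ τ' : ℝ) * (gram τ τ' : ℝ) = 1 := by
  have := gram_sq hτ hτ' h.symm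
  rw [if_pos hc] at this
  exact_mod_cast this

/-- a sum against the trial vector splits -/
theorem sum_trial {S : Finset (Finset (Fin n))} {d : ℕ} (hS : ∀ τ ∈ S, τ.card = d + 1)
    (c : Finset (Fin n) → ℝ) {τ : Finset (Fin n)} (hτ : τ ∈ S) (F : Finset (Fin n) → ℝ) :
    ∑ τ' ∈ S, trial c τ τ' * F τ' =
      F τ - ∑ τ' ∈ adj S d τ, c (τ ∩ τ') * (gram τ τ' : ℝ) * F τ' := by
  rw [← add_sum_erase S _ hτ, trial_self, one_mul, sub_eq_add_neg, ← sum_neg_distrib]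
  congr 1
  have hsub : adj S d τ ⊆ S.erase τ := by
    intro τ' h
    rw [adj, mem_filter] at h
    exact mem_erase.mpr ⟨h.2.1, h.1⟩
  rw [← sum_subset hsub]
  · refine sum_congr rfl fun τ' h => ?_
    rw [adj, mem_filter] at h
    rw [trial_ne c h.2.1]; ring
  · intro τ' h1 h2
    rw [mem_erase] at h1
    rw [trial_zero c h1.1 (hS τ hτ) (hS τ' h1.2), zero_mul]
    intro hc
    exact h2 (by rw [adj, mem_filter]; exact ⟨h1.2, h1.1, hc⟩)

theorem sum_trial_sq {S : Finset (Finset (Fin n))} {d : ℕ} (hS : ∀ τ ∈ S, τ.card = d + 1)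
    (c : Finset (Fin n) → ℝ) {τ : Finset (Fin n)} (hτ : τ ∈ S) :
    ∑ τ' ∈ S, trial c τ τ' ^ 2 = 1 + ∑ τ' ∈ adj S d τ, c (τ ∩ τ') ^ 2 := by
  have := sum_trial hS c hτ (trial c τ)
  simp only [sq]
  rw [this, trial_self, sub_eq_add_neg, ← sum_neg_distrib]
  congr 1
  refine sum_congr rfl fun τ' h => ?_
  rw [adj, mem_filter] at h
  rw [trial_ne c h.2.1]
  have := gram_sq_one h.2.1 (hS τ hτ) (hS τ' h.1) h.2.2
  linear_combination (c (τ ∩ τ') * c (τ ∩ τ')) * this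

theorem sum_trial_gram {S : Finset (Finset (Fin n))} {d : ℕ} (hS : ∀ τ ∈ S, τ.card = d + 1)
    (c : Finset (Fin n) → ℝ) (hc : ∀ σ, 0 ≤ c σ) {τ : Finset (Fin n)} (hτ : τ ∈ S) :
    ∑ τ' ∈ S, ∑ τ'' ∈ S, trial c τ τ' * (gram τ' τ'' : ℝ) * trial c τ τ'' ≤
      (d + 1) + ∑ τ' ∈ adj S d τ,
        (-2 * c (τ ∩ τ') + (d + (deg S (τ ∩ τ') : ℝ) - 1) * c (τ ∩ τ') ^ 2) := by
  have hadj : ∀ τ' ∈ adj S d τ, τ' ∈ S ∧ τ' ≠ τ ∧ (τ ∩ τ').card = d := by
    intro τ' h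
    rw [adj, mem_filter] at h
    exact ⟨h.1, h.2⟩
  -- inner sums
  have h1 : ∀ τ' ∈ S, ∑ τ'' ∈ S, trial c τ τ' * (gram τ' τ'' : ℝ) * trial c τ τ'' =
      trial c τ τ' * ((gram τ' τ : ℝ) -
        ∑ τ'' ∈ adj S d τ, c (τ ∩ τ'') * (gram τ τ'' : ℝ) * (gram τ' τ'' : ℝ)) := by
    intro τ' _
    rw [← sum_trial hS c hτ (fun τ'' => (gram τ' τ'' : ℝ)), mul_sum]
    exact sum_congr rfl fun τ'' _ => by ring
  rw [sum_congr rfl h1, sum_trial hS c hτ (fun τ' => ((gram τ' τ : ℝ) -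
        ∑ τ'' ∈ adj S d τ, c (τ ∩ τ'') * (gram τ τ'' : ℝ) * (gram τ' τ'' : ℝ)))]
  have h2 : (gram τ τ : ℝ) = d + 1 := by
    rw [gram_self, hS τ hτ]; push_cast; ring
  have h3 : ∑ τ'' ∈ adj S d τ, c (τ ∩ τ'') * (gram τ τ'' : ℝ) * (gram τ τ'' : ℝ) =
      ∑ τ'' ∈ adj S d τ, c (τ ∩ τ'') := by
    refine sum_congr rfl fun τ'' h => ?_
    obtain ⟨ha, hb, hcc⟩ := hadj τ'' h
    have := gram_sq_one hb (hS τ hτ) (hS τ'' ha) hcc
    linear_combination (c (τ ∩ τ'')) * this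
  rw [h2, h3]
  -- the remaining double sum
  have h4 : ∀ τ' ∈ adj S d τ, c (τ ∩ τ') * (gram τ τ' : ℝ) * ((gram τ' τ : ℝ) -
        ∑ τ'' ∈ adj S d τ, c (τ ∩ τ'') * (gram τ τ'' : ℝ) * (gram τ' τ'' : ℝ)) ≥
      c (τ ∩ τ') - (d + (deg S (τ ∩ τ') : ℝ) - 1) * c (τ ∩ τ') ^ 2 := by
    intro τ' h
    obtain ⟨ha, hb, hcc⟩ := hadj τ' h
    have g1 := gram_sq_one hb (hS τ hτ) (hS τ' ha) hcc
    have e1 : c (τ ∩ τ') * (gram τ τ' : ℝ) * ((gram τ' τ : ℝ) -
        ∑ τ'' ∈ adj S d τ, c (τ ∩ τ'') * (gram τ τ'' : ℝ) * (gram τ' τ'' : ℝ)) =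
        c (τ ∩ τ') - c (τ ∩ τ') * ∑ τ'' ∈ adj S d τ, c (τ ∩ τ'') *
          ((gram τ τ' : ℝ) * (gram τ τ'' : ℝ) * (gram τ' τ'' : ℝ)) := by
      rw [mul_sub, gram_comm τ' τ]
      congr 1
      · linear_combination (c (τ ∩ τ')) * g1
      · rw [mul_sum, mul_sum]
        exact sum_congr rfl fun τ'' _ => by ring
    rw [e1]
    have e2 : ∑ τ'' ∈ adj S d τ, c (τ ∩ τ'') *
          ((gram τ τ' : ℝ) * (gram τ τ'' : ℝ) * (gram τ' τ'' : ℝ)) ≤
        (d + (deg S (τ ∩ τ') : ℝ) - 1) * c (τ ∩ τ') := by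
      rw [← add_sum_erase _ _ h, gram_self, hS τ' ha, g1]
      have e3 : ∑ τ'' ∈ (adj S d τ).erase τ', c (τ ∩ τ'') *
          ((gram τ τ' : ℝ) * (gram τ τ'' : ℝ) * (gram τ' τ'' : ℝ)) ≤
          ∑ τ'' ∈ (adj S d τ).erase τ', (if τ ∩ τ'' = τ ∩ τ' then c (τ ∩ τ') else 0) := by
        refine sum_le_sum fun τ'' h'' => ?_
        rw [mem_erase] at h''
        obtain ⟨ha'', hb'', hcc''⟩ := hadj τ'' h''.2
        have := gram_triple (hS τ hτ) (hS τ' ha) (hS τ'' ha'') hb.symm hb''.symm h''.1.symm hcc hcc''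
        have this' : (gram τ τ' : ℝ) * (gram τ τ'' : ℝ) * (gram τ' τ'' : ℝ) ≤
            if τ ∩ τ' = τ ∩ τ'' then 1 else 0 := by
          split_ifs at this ⊢ <;> exact_mod_cast this
        by_cases he : τ ∩ τ' = τ ∩ τ''
        · rw [if_pos he] at this'
          rw [if_pos he.symm, he]
          calc _ ≤ c (τ ∩ τ'') * 1 := mul_le_mul_of_nonneg_left this' (hc _)
            _ = c (τ ∩ τ'') := mul_one _
        · rw [if_neg he] at this'
          rw [if_neg (fun h => he h.symm)]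
          calc _ ≤ c (τ ∩ τ'') * 0 := mul_le_mul_of_nonneg_left this' (hc _)
            _ = 0 := mul_zero _
      have e4 : ∑ τ'' ∈ (adj S d τ).erase τ', (if τ ∩ τ'' = τ ∩ τ' then c (τ ∩ τ') else 0) ≤
          ((deg S (τ ∩ τ') : ℝ) - 2) * c (τ ∩ τ') := by
        rw [← sum_filter, sum_const, nsmul_eq_mul]
        refine mul_le_mul_of_nonneg_right ?_ (hc _)
        set B := filter (fun τ'' => τ ∩ τ'' = τ ∩ τ') ((adj S d τ).erase τ') with hB
        have hB1 : τ ∉ insert τ' B := by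
          rw [mem_insert, not_or]
          refine ⟨hb.symm, ?_⟩
          intro hmem
          rw [hB, mem_filter, mem_erase] at hmem
          exact (hadj τ hmem.1.2).2.1 rfl
        have hB2 : τ' ∉ B := by
          intro hmem
          rw [hB, mem_filter, mem_erase] at hmem
          exact hmem.1.1 rfl
        have hsub : insert τ (insert τ' B) ⊆ S.filter (τ ∩ τ' ⊆ ·) := by
          intro ρ hρ
          rw [mem_insert, mem_insert] at hρ
          rw [mem_filter]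
          rcases hρ with rfl | rfl | hρ
          · exact ⟨hτ, inter_subset_left⟩
          · exact ⟨ha, inter_subset_right⟩
          · rw [hB, mem_filter, mem_erase] at hρ
            refine ⟨(hadj ρ hρ.1.2).1, ?_⟩
            rw [← hρ.2]
            exact inter_subset_right
        have hcard := card_le_card hsub
        rw [card_insert_of_notMem hB1, card_insert_of_notMem hB2] at hcard
        have : (B.card : ℝ) + 1 + 1 ≤ (deg S (τ ∩ τ') : ℝ) := by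
          unfold deg
          exact_mod_cast hcard
        linarith
      have e5 : c (τ ∩ τ') * (1 * (((d + 1 : ℕ) : ℤ) : ℝ)) = (d + 1) * c (τ ∩ τ') := by
        push_cast; ring
      rw [e5]
      linarith
    have := mul_le_mul_of_nonneg_left e2 (hc (τ ∩ τ'))
    nlinarith [this]
  have h5 := sum_le_sum (fun τ' h => (h4 τ' h))
  rw [sum_sub_distrib] at h5
  have h6 : ∑ τ' ∈ adj S d τ, (-2 * c (τ ∩ τ') + (d + (deg S (τ ∩ τ') : ℝ) - 1) * c (τ ∩ τ') ^ 2)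
      = -2 * ∑ τ' ∈ adj S d τ, c (τ ∩ τ') +
        ∑ τ' ∈ adj S d τ, (d + (deg S (τ ∩ τ') : ℝ) - 1) * c (τ ∩ τ') ^ 2 := by
    rw [sum_add_distrib, mul_sum]
  rw [h6]
  linarith

/-- rows: `d`-sets avoiding `v` -/
def rows (n d : ℕ) (v : Fin n) : Finset (Finset (Fin n)) :=
  univ.filter (fun σ => σ.card = d ∧ v ∉ σ)

theorem mem_rows {d : ℕ} {v : Fin n} {σ : Finset (Fin n)} :
    σ ∈ rows n d v ↔ σ.card = d ∧ v ∉ σ := by
  simp [rows]

theorem sum_adj {S : Finset (Finset (Fin n))} {d : ℕ} {v : Fin n}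
    (hS : ∀ τ ∈ S, τ.card = d + 1 ∧ v ∉ τ) (F : Finset (Fin n) → ℝ) :
    ∑ τ ∈ S, ∑ τ' ∈ adj S d τ, F (τ ∩ τ') =
      ∑ σ ∈ rows n d v, (deg S σ : ℝ) * ((deg S σ : ℝ) - 1) * F σ := by
  have h1 : ∀ τ ∈ S, ∑ τ' ∈ adj S d τ, F (τ ∩ τ') =
      ∑ τ' ∈ S.erase τ, ∑ σ ∈ rows n d v, if σ ⊆ τ ∧ σ ⊆ τ' then F σ else 0 := by
    intro τ hτ
    have hsub : adj S d τ ⊆ S.erase τ := by
      intro τ' h
      rw [adj, mem_filter] at h
      exact mem_erase.mpr ⟨h.2.1, h.1⟩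
    rw [← sum_subset hsub]
    · refine sum_congr rfl fun τ' h => ?_
      rw [adj, mem_filter] at h
      rw [sum_eq_single (τ ∩ τ')]
      · rw [if_pos ⟨inter_subset_left, inter_subset_right⟩]
      · intro σ hσ hne
        rw [mem_rows] at hσ
        rw [if_neg]
        rintro ⟨h1, h2⟩
        exact hne (eq_of_subset_of_card_le (subset_inter h1 h2) (by rw [h.2.2, hσ.1]))
      · intro h'
        exfalso
        apply h'
        rw [mem_rows]
        exact ⟨h.2.2, fun hv => (hS τ hτ).2 (mem_inter.mp hv).1⟩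
    · intro τ' h1 h2
      rw [mem_erase] at h1
      refine sum_eq_zero fun σ hσ => ?_
      rw [mem_rows] at hσ
      rw [if_neg]
      rintro ⟨h3, h4⟩
      apply h2
      rw [adj, mem_filter]
      refine ⟨h1.2, h1.1, ?_⟩
      have h5 := card_le_card (subset_inter h3 h4)
      have h6 : (τ ∩ τ').card ≤ d := by
        by_contra hlt
        have hle : (τ ∩ τ').card ≤ τ.card := card_le_card inter_subset_left
        have h7 : (τ ∩ τ').card = d + 1 := by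
          have := (hS τ hτ).1
          omega
        have e1 : τ ∩ τ' = τ := eq_of_subset_of_card_le inter_subset_left
          (by rw [h7, (hS τ hτ).1])
        have e2 : τ ∩ τ' = τ' := eq_of_subset_of_card_le inter_subset_right
          (by rw [h7, (hS τ' h1.2).1])
        exact h1.1 (e2.symm.trans e1)
      omega
  rw [sum_congr rfl h1]
  have h2 : ∀ τ ∈ S, ∑ τ' ∈ S.erase τ, ∑ σ ∈ rows n d v, (if σ ⊆ τ ∧ σ ⊆ τ' then F σ else 0) =
      ∑ σ ∈ rows n d v, (if σ ⊆ τ then ((deg S σ : ℝ) - 1) * F σ else 0) := by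
    intro τ hτ
    rw [sum_comm]
    refine sum_congr rfl fun σ _ => ?_
    split_ifs with h
    · simp only [h, true_and]
      rw [← sum_filter, sum_const, nsmul_eq_mul]
      congr 1
      have h3 : S.filter (σ ⊆ ·) = insert τ ((S.erase τ).filter (σ ⊆ ·)) := by
        ext ρ
        simp only [mem_filter, mem_insert, mem_erase]
        constructor
        · rintro ⟨ha, hb⟩
          by_cases hρ : ρ = τ
          · exact Or.inl hρ
          · exact Or.inr ⟨⟨hρ, ha⟩, hb⟩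
        · rintro (rfl | ⟨⟨_, ha⟩, hb⟩)
          · exact ⟨hτ, h⟩
          · exact ⟨ha, hb⟩
      unfold deg
      rw [h3, card_insert_of_notMem (by simp)]
      push_cast; ring
    · simp [h]
  rw [sum_congr rfl h2, sum_comm]
  refine sum_congr rfl fun σ _ => ?_
  rw [← sum_filter, sum_const, nsmul_eq_mul]
  unfold deg
  ring

theorem sum_deg {S : Finset (Finset (Fin n))} {d : ℕ} {v : Fin n}
    (hS : ∀ τ ∈ S, τ.card = d + 1 ∧ v ∉ τ) :
    ∑ σ ∈ rows n d v, (deg S σ : ℝ) = (d + 1) * S.card := by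
  have h1 : ∀ σ, (deg S σ : ℝ) = ∑ τ ∈ S, if σ ⊆ τ then (1 : ℝ) else 0 := by
    intro σ
    unfold deg
    rw [← sum_filter]; simp
  simp only [h1]
  rw [sum_comm]
  have h2 : ∀ τ ∈ S, ∑ σ ∈ rows n d v, (if σ ⊆ τ then (1 : ℝ) else 0) = d + 1 := by
    intro τ hτ
    rw [← sum_filter]
    have : (rows n d v).filter (· ⊆ τ) = τ.powersetCard d := by
      ext σ
      rw [mem_filter, mem_rows, mem_powersetCard]
      constructor
      · rintro ⟨⟨h1, _⟩, h2⟩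
        exact ⟨h2, h1⟩
      · rintro ⟨h2, h1⟩
        exact ⟨⟨h1, fun hv => (hS τ hτ).2 (h2 hv)⟩, h2⟩
    rw [this, sum_const, card_powersetCard, (hS τ hτ).1]
    simp
  rw [sum_congr rfl h2, sum_const, nsmul_eq_mul]
  ring

/-- the choice of coefficient -/
noncomputable def coef (S : Finset (Finset (Fin n))) (d : ℕ) (t : ℝ) (σ : Finset (Fin n)) : ℝ :=
  t / (((d : ℝ) + 1) + t * ((deg S σ : ℝ) - 2))

theorem coef_den_pos {d : ℕ} (hd : 2 ≤ d) {t : ℝ} (ht0 : 0 < t) (ht1 : t < 1) (k : ℝ)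
    (hk : 0 ≤ k) : 0 < ((d : ℝ) + 1) + t * (k - 2) := by
  have : (2 : ℝ) ≤ d := by exact_mod_cast hd
  nlinarith [mul_nonneg ht0.le hk]

theorem coef_nonneg {S : Finset (Finset (Fin n))} {d : ℕ} (hd : 2 ≤ d) {t : ℝ} (ht0 : 0 < t)
    (ht1 : t < 1) (σ : Finset (Fin n)) : 0 ≤ coef S d t σ :=
  div_nonneg ht0.le (coef_den_pos hd ht0 ht1 _ (Nat.cast_nonneg _)).le

/-- tangent line inequality, per row -/
theorem row_ineq (D k t : ℝ) (hD : 3 ≤ D) (hk : 0 ≤ k) (ht0 : 0 < t) (ht1 : t < 1) :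
    (D - 1) / (D + t * (D - 2)) +
      ((2 * D - 1) * (D + t * (D - 2)) - t * D * (D - 1)) / (D + t * (D - 2)) ^ 2 * (k / D - 1) ≤
    k * (k - 1) / (D * (D + t * (k - 2))) := by
  have h1 : 0 < D + t * (k - 2) := by nlinarith [mul_nonneg ht0.le hk]
  have h2 : 0 < D + t * (D - 2) := by nlinarith
  have h3 : 0 < D := by linarith
  have key : k * (k - 1) / (D * (D + t * (k - 2))) - ((D - 1) / (D + t * (D - 2)) +
      ((2 * D - 1) * (D + t * (D - 2)) - t * D * (D - 1)) / (D + t * (D - 2)) ^ 2 * (k / D - 1)) =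
      (k - D) ^ 2 * ((D - 2 * t) * (D - t)) / (D * (D + t * (k - 2)) * (D + t * (D - 2)) ^ 2) := by
    field_simp
    ring
  have h4 : 0 ≤ (k - D) ^ 2 * ((D - 2 * t) * (D - t)) /
      (D * (D + t * (k - 2)) * (D + t * (D - 2)) ^ 2) := by
    have : 0 ≤ (D - 2 * t) * (D - t) := mul_nonneg (by linarith) (by linarith)
    positivity
  linarith

/-- comparison with the case `D = 3` -/
theorem mix_ineq (D t N M : ℝ) (hD : 3 ≤ D) (ht0 : 0 < t) (ht1 : t < 1) (hN : 0 ≤ N)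
    (hM : 0 ≤ M) :
    (N + M) * (2 / (3 + t)) - M * ((15 - t) / (3 + t) ^ 2) ≤
    (N + M) * ((D - 1) / (D + t * (D - 2))) -
      M * (((2 * D - 1) * (D + t * (D - 2)) - t * D * (D - 1)) / (D + t * (D - 2)) ^ 2) := by
  have h2 : 0 < D + t * (D - 2) := by nlinarith
  have h3 : 0 < 3 + t := by linarith
  have i1 : 2 / (3 + t) ≤ (D - 1) / (D + t * (D - 2)) := by
    rw [div_le_div_iff₀ h3 h2]
    nlinarith [mul_nonneg (sub_nonneg.mpr hD) (sub_nonneg.mpr ht1.le)]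
  have i2 : 2 / (3 + t) - (15 - t) / (3 + t) ^ 2 ≤ (D - 1) / (D + t * (D - 2)) -
      ((2 * D - 1) * (D + t * (D - 2)) - t * D * (D - 1)) / (D + t * (D - 2)) ^ 2 := by
    have e : (D - 1) / (D + t * (D - 2)) -
      ((2 * D - 1) * (D + t * (D - 2)) - t * D * (D - 1)) / (D + t * (D - 2)) ^ 2 -
      (2 / (3 + t) - (15 - t) / (3 + t) ^ 2) =
      t * (D - 3) * ((9 + 2 * t - 3 * t ^ 2) * D - 12 * t + 4 * t ^ 2) /
        ((D + t * (D - 2)) ^ 2 * (3 + t) ^ 2) := by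
      field_simp
      ring
    have h4 : 0 ≤ (9 + 2 * t - 3 * t ^ 2) * D - 12 * t + 4 * t ^ 2 := by
      have a1 : 0 ≤ 9 + 2 * t - 3 * t ^ 2 := by nlinarith
      nlinarith [mul_nonneg a1 (sub_nonneg.mpr hD)]
    have h5 : 0 ≤ t * (D - 3) * ((9 + 2 * t - 3 * t ^ 2) * D - 12 * t + 4 * t ^ 2) /
        ((D + t * (D - 2)) ^ 2 * (3 + t) ^ 2) := by
      have : 0 ≤ D - 3 := by linarith
      positivity
    linarith
  nlinarith [mul_le_mul_of_nonneg_left i1 hN, mul_le_mul_of_nonneg_left i2 hM]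

/-- The total energy of the trial vectors. -/
theorem energy {S : Finset (Finset (Fin n))} {d : ℕ} (hd : 2 ≤ d) {v : Fin n}
    (hS : ∀ τ ∈ S, τ.card = d + 1 ∧ v ∉ τ) (hle : S.card ≤ (rows n d v).card)
    {t : ℝ} (ht0 : 0 < t) (ht1 : t < 1) :
    ∑ τ ∈ S, ((1 - t) * ∑ τ' ∈ S, trial (coef S d t) τ τ' ^ 2 +
      t / (d + 1) * ∑ τ' ∈ S, ∑ τ'' ∈ S, trial (coef S d t) τ τ' * (gram τ' τ'' : ℝ) *
        trial (coef S d t) τ τ'') ≤
    S.card - t ^ 2 * ((rows n d v).card * (2 / (3 + t)) +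
      ((S.card : ℝ) - (rows n d v).card) * ((15 - t) / (3 + t) ^ 2)) := by
  have hS' : ∀ τ ∈ S, τ.card = d + 1 := fun τ h => (hS τ h).1
  have hDpos : (0 : ℝ) < (d : ℝ) + 1 := by positivity
  have hD3 : (3 : ℝ) ≤ (d : ℝ) + 1 := by
    have : (2 : ℝ) ≤ d := by exact_mod_cast hd
    linarith
  -- bound each term
  have h1 : ∀ τ ∈ S, ((1 - t) * ∑ τ' ∈ S, trial (coef S d t) τ τ' ^ 2 +
      t / (d + 1) * ∑ τ' ∈ S, ∑ τ'' ∈ S, trial (coef S d t) τ τ' * (gram τ' τ'' : ℝ) *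
        trial (coef S d t) τ τ'') ≤
      1 - ∑ τ' ∈ adj S d τ, t / (d + 1) * coef S d t (τ ∩ τ') := by
    intro τ hτ
    have a1 := sum_trial_sq hS' (coef S d t) hτ
    have a2 := sum_trial_gram hS' (coef S d t) (coef_nonneg hd ht0 ht1) hτ
    rw [a1]
    have a3 := mul_le_mul_of_nonneg_left a2 (div_nonneg ht0.le hDpos.le)
    have a4 : (1 - t) * (1 + ∑ τ' ∈ adj S d τ, coef S d t (τ ∩ τ') ^ 2) +
        t / (d + 1) * ((d + 1) + ∑ τ' ∈ adj S d τ,
        (-2 * coef S d t (τ ∩ τ') + (d + (deg S (τ ∩ τ') : ℝ) - 1) * coef S d t (τ ∩ τ') ^ 2)) =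
        1 - ∑ τ' ∈ adj S d τ, t / (d + 1) * coef S d t (τ ∩ τ') := by
      have e1 : ∀ σ : Finset (Fin n), (1 - t) * coef S d t σ ^ 2 + t / (d + 1) *
          (-2 * coef S d t σ + (d + (deg S σ : ℝ) - 1) * coef S d t σ ^ 2) =
          - (t / (d + 1) * coef S d t σ) := by
        intro σ
        have hden := coef_den_pos hd ht0 ht1 (deg S σ : ℝ) (Nat.cast_nonneg _)
        unfold coef
        field_simp
        ring
      have e2 : (1 - t) * ∑ τ' ∈ adj S d τ, coef S d t (τ ∩ τ') ^ 2 +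
          t / (d + 1) * ∑ τ' ∈ adj S d τ,
        (-2 * coef S d t (τ ∩ τ') + (d + (deg S (τ ∩ τ') : ℝ) - 1) * coef S d t (τ ∩ τ') ^ 2) =
          - ∑ τ' ∈ adj S d τ, t / (d + 1) * coef S d t (τ ∩ τ') := by
        rw [mul_sum, mul_sum, ← sum_add_distrib, ← sum_neg_distrib]
        exact sum_congr rfl fun τ' _ => e1 _
      have e3 : t / ((d : ℝ) + 1) * ((d : ℝ) + 1) = t := by field_simp
      linear_combination e2 + e3
    linarith
  refine (sum_le_sum h1).trans ?_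
  rw [sum_sub_distrib, sum_adj hS (fun σ => t / (d + 1) * coef S d t σ)]
  have h2 : ∑ σ ∈ rows n d v, (deg S σ : ℝ) * ((deg S σ : ℝ) - 1) * (t / (d + 1) * coef S d t σ) ≥
      ∑ σ ∈ rows n d v, t ^ 2 * ((((d : ℝ) + 1) - 1) / (((d : ℝ) + 1) + t * (((d : ℝ) + 1) - 2)) +
      ((2 * ((d : ℝ) + 1) - 1) * (((d : ℝ) + 1) + t * (((d : ℝ) + 1) - 2)) -
        t * ((d : ℝ) + 1) * (((d : ℝ) + 1) - 1)) /
        (((d : ℝ) + 1) + t * (((d : ℝ) + 1) - 2)) ^ 2 * ((deg S σ : ℝ) / ((d : ℝ) + 1) - 1)) := by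
    refine sum_le_sum fun σ _ => ?_
    have := row_ineq ((d : ℝ) + 1) (deg S σ : ℝ) t hD3 (Nat.cast_nonneg _) ht0 ht1
    have e : (deg S σ : ℝ) * ((deg S σ : ℝ) - 1) * (t / (d + 1) * coef S d t σ) =
        t ^ 2 * ((deg S σ : ℝ) * ((deg S σ : ℝ) - 1) /
          (((d : ℝ) + 1) * (((d : ℝ) + 1) + t * ((deg S σ : ℝ) - 2)))) := by
      have hden := coef_den_pos hd ht0 ht1 (deg S σ : ℝ) (Nat.cast_nonneg _)
      unfold coef
      field_simp
    rw [e]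
    exact mul_le_mul_of_nonneg_left this (by positivity)
  have h3 : ∑ σ ∈ rows n d v, ((deg S σ : ℝ) / ((d : ℝ) + 1) - 1) =
      S.card - (rows n d v).card := by
    rw [sum_sub_distrib, ← sum_div, sum_deg hS]
    simp only [sum_const, nsmul_eq_mul, mul_one]
    field_simp
  rw [← mul_sum, sum_add_distrib, ← mul_sum, h3, sum_const, nsmul_eq_mul] at h2
  have hM : (0 : ℝ) ≤ (rows n d v).card - (S.card : ℝ) := by
    have : (S.card : ℝ) ≤ (rows n d v).card := by exact_mod_cast hle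
    linarith
  have h4 := mix_ineq ((d : ℝ) + 1) t (S.card : ℝ) ((rows n d v).card - (S.card : ℝ)) hD3 ht0 ht1
    (Nat.cast_nonneg _) hM
  have h5 := mul_le_mul_of_nonneg_left h4 (sq_nonneg t)
  simp only [sum_const, nsmul_eq_mul, mul_one]
  nlinarith [h2, h5]

end Pool.Agent.Lib.MP_9701dc_gt
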