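import Mathlib

set_option autoImplicit false

namespace Pool.Agent.Lib.MP_9701dc_gt

open Finset

variable {n : ℕ}

/-- The incidence number of `σ` in the boundary of `τ`. -/
def inc (σ τ : Finset (Fin n)) : ℤ :=
  ∑ v ∈ τ, if τ.erase v = σ then (-1) ^ (τ.filter (· < v)).card else 0

/-- `(-1)` to the number of elements of `σ` below `v`. -/
def sg (v : Fin n) (σ : Finset (Fin n)) : ℤ := (-1) ^ (σ.filter (· < v)).card

theorem sg_sq (v : Fin n) (σ : Finset (Fin n)) : sg v σ * sg v σ = 1 := by
  unfold sg
  rw [← pow_add, ← two_mul, pow_mul]; norm_num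

theorem sg_insert {u v : Fin n} {σ : Finset (Fin n)} (hu : u ∉ σ) :
    sg v (insert u σ) = (if u < v then -1 else 1) * sg v σ := by
  unfold sg
  rw [filter_insert]
  split_ifs with h
  · rw [card_insert_of_notMem (by simp [hu]), pow_succ]; ring
  · simp

theorem inc_insert {v : Fin n} {σ : Finset (Fin n)} (hv : v ∉ σ) :
    inc σ (insert v σ) = sg v σ := by
  unfold inc
  rw [sum_eq_single v]
  · rw [if_pos (erase_insert hv)]
    unfold sg
    rw [filter_insert, if_neg (lt_irrefl v)]
  · intro b hb hbv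
    rw [if_neg]
    intro h
    have : v ∈ (insert v σ).erase b := mem_erase.mpr ⟨hbv.symm, mem_insert_self v σ⟩
    rw [h] at this
    exact hv this
  · intro h
    exact absurd (mem_insert_self v σ) h

theorem inc_ne_zero {σ τ : Finset (Fin n)} (h : inc σ τ ≠ 0) : ∃ v, v ∉ σ ∧ τ = insert v σ := by
  unfold inc at h
  obtain ⟨v, hv, hne⟩ := exists_ne_zero_of_sum_ne_zero h
  have : τ.erase v = σ := by
    by_contra hc
    rw [if_neg hc] at hne
    exact hne rfl
  refine ⟨v, ?_, ?_⟩
  · rw [← this]; simp
  · rw [← this, insert_erase hv]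

theorem inc_eq_zero_of_card {σ τ : Finset (Fin n)} (h : τ.card ≠ σ.card + 1) : inc σ τ = 0 := by
  by_contra hc
  obtain ⟨v, hv, rfl⟩ := inc_ne_zero hc
  exact h (card_insert_of_notMem hv)

/-- Inner product of two boundaries. -/
def gram (τ τ' : Finset (Fin n)) : ℤ := ∑ σ : Finset (Fin n), inc σ τ * inc σ τ'

theorem gram_comm (τ τ' : Finset (Fin n)) : gram τ τ' = gram τ' τ := by
  unfold gram
  exact sum_congr rfl fun σ _ => mul_comm _ _

theorem gram_self (τ : Finset (Fin n)) : gram τ τ = τ.card := by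
  unfold gram
  have h1 : ∑ σ : Finset (Fin n), inc σ τ * inc σ τ =
      ∑ σ ∈ τ.image (fun v => τ.erase v), inc σ τ * inc σ τ := by
    symm
    refine sum_subset (subset_univ _) fun σ _ hσ => ?_
    have : inc σ τ = 0 := by
      by_contra hc
      obtain ⟨v, hv, rfl⟩ := inc_ne_zero hc
      apply hσ
      rw [mem_image]
      exact ⟨v, mem_insert_self v σ, erase_insert hv⟩
    rw [this]; ring
  rw [h1, sum_image]
  · have : ∀ v ∈ τ, inc (τ.erase v) τ * inc (τ.erase v) τ = 1 := by
      intro v hv
      conv_lhs => rw [← insert_erase hv]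
      rw [erase_insert_eq_erase, erase_idem, inc_insert (by simp)]
      exact sg_sq _ _
    rw [sum_congr rfl this]
    simp
  · intro a ha b hb hab
    by_contra hne
    have hab' : τ.erase a = τ.erase b := hab
    have : a ∈ τ.erase b := mem_erase.mpr ⟨hne, ha⟩
    rw [← hab'] at this
    simp at this

theorem gram_insert {u w : Fin n} {σ : Finset (Fin n)} (hu : u ∉ σ) (hw : w ∉ σ) (huw : u ≠ w) :
    gram (insert u σ) (insert w σ) = sg u σ * sg w σ := by
  unfold gram
  rw [sum_eq_single σ]
  · rw [inc_insert hu, inc_insert hw]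
  · intro ρ _ hρ
    by_contra hc
    have h1 : inc ρ (insert u σ) ≠ 0 := left_ne_zero_of_mul hc
    have h2 : inc ρ (insert w σ) ≠ 0 := right_ne_zero_of_mul hc
    obtain ⟨a, ha, hae⟩ := inc_ne_zero h1
    obtain ⟨b, hb, hbe⟩ := inc_ne_zero h2
    apply hρ
    have hsub : ρ ⊆ σ := by
      intro x hx
      have h3 : x ∈ insert u σ := by rw [hae]; exact mem_insert_of_mem hx
      have h4 : x ∈ insert w σ := by rw [hbe]; exact mem_insert_of_mem hx
      rw [mem_insert] at h3 h4
      rcases h3 with rfl | h3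
      · rcases h4 with rfl | h4
        · exact absurd rfl huw
        · exact h4
      · exact h3
    have hcard : ρ.card = σ.card := by
      have e1 := congrArg Finset.card hae
      rw [card_insert_of_notMem hu, card_insert_of_notMem ha] at e1
      omega
    exact eq_of_subset_of_card_le hsub hcard.ge
  · intro h
    exact absurd (mem_univ σ) h

/-- Two sets of the same size with nonzero inner product of boundaries are adjacent. -/
theorem gram_ne_zero {τ τ' : Finset (Fin n)} {d : ℕ} (hτ : τ.card = d + 1)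
    (hne : τ ≠ τ') (h : gram τ τ' ≠ 0) :
    ∃ σ : Finset (Fin n), ∃ u w, σ.card = d ∧ u ∉ σ ∧ w ∉ σ ∧ u ≠ w ∧ τ = insert u σ ∧
      τ' = insert w σ := by
  unfold gram at h
  obtain ⟨σ, _, hσ⟩ := exists_ne_zero_of_sum_ne_zero h
  obtain ⟨u, hu, hue⟩ := inc_ne_zero (left_ne_zero_of_mul hσ)
  obtain ⟨w, hw, hwe⟩ := inc_ne_zero (right_ne_zero_of_mul hσ)
  refine ⟨σ, u, w, ?_, hu, hw, ?_, hue, hwe⟩
  · rw [hue, card_insert_of_notMem hu] at hτ; omega
  · rintro rfl
    exact hne (hue.trans hwe.symm)

theorem inter_insert_insert {u w : Fin n} {σ : Finset (Fin n)} (hu : u ∉ σ) (huw : u ≠ w) :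
    insert u σ ∩ insert w σ = σ := by
  ext x
  simp only [mem_inter, mem_insert]
  constructor
  · rintro ⟨rfl | h1, h2 | h2⟩
    · exact absurd h2 huw
    · exact h2
    · exact h1
    · exact h1
  · intro h
    exact ⟨Or.inr h, Or.inr h⟩

/-- adjacency -/
theorem adj_iff {τ τ' : Finset (Fin n)} {d : ℕ} (hτ : τ.card = d + 1) (hτ' : τ'.card = d + 1)
    (hne : τ ≠ τ') : (τ ∩ τ').card = d ↔ gram τ τ' ≠ 0 := by
  constructor
  · intro h
    have h1 : (τ \ τ').card = 1 := by
      have := card_sdiff_add_card_inter τ τ'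
      omega
    have h2 : (τ' \ τ).card = 1 := by
      have := card_sdiff_add_card_inter τ' τ
      rw [inter_comm] at this
      omega
    obtain ⟨u, hu⟩ := card_eq_one.mp h1
    obtain ⟨w, hw⟩ := card_eq_one.mp h2
    have hu' : u ∈ τ ∧ u ∉ τ' := by
      have : u ∈ τ \ τ' := by rw [hu]; simp
      simpa using this
    have hw' : w ∈ τ' ∧ w ∉ τ := by
      have : w ∈ τ' \ τ := by rw [hw]; simp
      simpa using this
    have e1 : τ = insert u (τ ∩ τ') := by
      ext x
      rw [mem_insert, mem_inter]
      constructor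
      · intro hx
        by_cases hx' : x ∈ τ'
        · exact Or.inr ⟨hx, hx'⟩
        · left
          have : x ∈ τ \ τ' := mem_sdiff.mpr ⟨hx, hx'⟩
          rw [hu] at this
          exact mem_singleton.mp this
      · rintro (rfl | h)
        · exact hu'.1
        · exact h.1
    have e2 : τ' = insert w (τ ∩ τ') := by
      ext x
      rw [mem_insert, mem_inter]
      constructor
      · intro hx
        by_cases hx' : x ∈ τ
        · exact Or.inr ⟨hx', hx⟩
        · left
          have : x ∈ τ' \ τ := mem_sdiff.mpr ⟨hx, hx'⟩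
          rw [hw] at this
          exact mem_singleton.mp this
      · rintro (rfl | h)
        · exact hw'.1
        · exact h.2
    have huw : u ≠ w := by
      rintro rfl
      exact hu'.2 hw'.1
    have hun : u ∉ τ ∩ τ' := by simp [hu'.2]
    have hwn : w ∉ τ ∩ τ' := by simp [hw'.2]
    have h3 : gram τ τ' = sg u (τ ∩ τ') * sg w (τ ∩ τ') := by
      have := gram_insert hun hwn huw
      rwa [← e1, ← e2] at this
    rw [h3]
    intro h4
    have h5 := sg_sq u (τ ∩ τ')
    have h6 := sg_sq w (τ ∩ τ')
    have : (sg u (τ ∩ τ') * sg w (τ ∩ τ')) * (sg u (τ ∩ τ') * sg w (τ ∩ τ')) = 1 := by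
      calc _ = (sg u (τ ∩ τ') * sg u (τ ∩ τ')) * (sg w (τ ∩ τ') * sg w (τ ∩ τ')) := by ring
        _ = 1 := by rw [h5, h6]; norm_num
    rw [h4] at this
    norm_num at this
  · intro h
    obtain ⟨σ, u, w, hσ, hu, hw, huw, rfl, rfl⟩ := gram_ne_zero hτ hne h
    rw [inter_insert_insert hu huw, hσ]

theorem gram_sq {τ τ' : Finset (Fin n)} {d : ℕ} (hτ : τ.card = d + 1) (hτ' : τ'.card = d + 1)
    (hne : τ ≠ τ') : gram τ τ' * gram τ τ' = if (τ ∩ τ').card = d then 1 else 0 := by
  by_cases h : gram τ τ' = 0
  · rw [if_neg, h]; · rfl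
    rw [adj_iff hτ hτ' hne]
    simpa using h
  · rw [if_pos ((adj_iff hτ hτ' hne).mpr h)]
    obtain ⟨σ, u, w, hσ, hu, hw, huw, rfl, rfl⟩ := gram_ne_zero hτ hne h
    rw [gram_insert hu hw huw]
    have h5 := sg_sq u σ
    have h6 := sg_sq w σ
    calc _ = (sg u σ * sg u σ) * (sg w σ * sg w σ) := by ring
      _ = 1 := by rw [h5, h6]; norm_num

/-- Three sets `κ ∪ {a,b}`, `κ ∪ {b,x}`, `κ ∪ {a,x}`: the product of the three inner products is
`-1`. -/
theorem gram_triangle {κ : Finset (Fin n)} {a b x : Fin n} (ha : a ∉ κ) (hb : b ∉ κ) (hx : x ∉ κ)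
    (hab : a ≠ b) (hax : a ≠ x) (hbx : b ≠ x) :
    gram (insert a (insert b κ)) (insert x (insert b κ)) *
      gram (insert a (insert b κ)) (insert x (insert a κ)) *
      gram (insert x (insert b κ)) (insert x (insert a κ)) = -1 := by
  have e1 : gram (insert a (insert b κ)) (insert x (insert b κ)) =
      sg a (insert b κ) * sg x (insert b κ) :=
    gram_insert (by simp [hab, ha]) (by simp [hbx.symm, hx]) hax
  have e2 : gram (insert a (insert b κ)) (insert x (insert a κ)) =
      sg b (insert a κ) * sg x (insert a κ) := by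
    rw [insert_comm a b]
    exact gram_insert (by simp [hab.symm, hb]) (by simp [hax.symm, hx]) hbx
  have e3 : gram (insert x (insert b κ)) (insert x (insert a κ)) =
      sg b (insert x κ) * sg a (insert x κ) := by
    rw [insert_comm x b, insert_comm x a]
    exact gram_insert (by simp [hbx, hb]) (by simp [hax, ha]) hab.symm
  rw [e1, e2, e3, sg_insert hb, sg_insert hb, sg_insert ha, sg_insert ha, sg_insert hx,
    sg_insert hx]
  have s1 := sg_sq a κ
  have s2 := sg_sq b κ
  have s3 := sg_sq x κ
  have key : ∀ p q r : ℤ, ((if b < a then -1 else 1) * p * ((if b < x then -1 else 1) * r)) *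
      ((if a < b then -1 else 1) * q * ((if a < x then -1 else 1) * r)) *
      ((if x < b then -1 else 1) * q * ((if x < a then -1 else 1) * p)) =
      -((p * p) * (q * q) * (r * r)) := by
    intro p q r
    rcases lt_or_gt_of_ne hab with h1 | h1 <;> rcases lt_or_gt_of_ne hax with h2 | h2 <;>
      rcases lt_or_gt_of_ne hbx with h3 | h3 <;>
      simp only [h1, h2, h3, not_lt_of_gt h1, not_lt_of_gt h2, not_lt_of_gt h3, if_true, if_false]
      <;> ring
  rw [key, s1, s2, s3]
  norm_num

/-- The triple product bound. -/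
theorem gram_triple {τ τ' τ'' : Finset (Fin n)} {d : ℕ} (hτ : τ.card = d + 1)
    (hτ' : τ'.card = d + 1) (hτ'' : τ''.card = d + 1) (h1 : τ ≠ τ') (h2 : τ ≠ τ'')
    (h3 : τ' ≠ τ'') (h12 : (τ ∩ τ').card = d) (h13 : (τ ∩ τ'').card = d) :
    gram τ τ' * gram τ τ'' * gram τ' τ'' ≤ if τ ∩ τ' = τ ∩ τ'' then 1 else 0 := by
  obtain ⟨σ, u, w, hσ, hu, hw, huw, hτu, hτ'w⟩ :=
    gram_ne_zero hτ h1 ((adj_iff hτ hτ' h1).mp h12)
  obtain ⟨σ', u', w', hσ', hu', hw', huw', hτu', hτ'w'⟩ :=
    gram_ne_zero hτ h2 ((adj_iff hτ hτ'' h2).mp h13)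
  have i1 : τ ∩ τ' = σ := by rw [hτu, hτ'w]; exact inter_insert_insert hu huw
  have i2 : τ ∩ τ'' = σ' := by rw [hτu', hτ'w']; exact inter_insert_insert hu' huw'
  rw [i1, i2]
  split_ifs with hss
  · subst hss
    have huu : u = u' := by
      have : u ∈ insert u' σ := by rw [← hτu', hτu]; exact mem_insert_self _ _
      rw [mem_insert] at this
      exact this.resolve_right hu
    subst huu
    have hww : w ≠ w' := by
      rintro rfl
      exact h3 (hτ'w.trans hτ'w'.symm)
    rw [hτ'w, hτ'w', hτu, gram_insert hu hw huw, gram_insert hu hw' huw', gram_insert hw hw' hww]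
    have s1 := sg_sq u σ
    have s2 := sg_sq w σ
    have s3 := sg_sq w' σ
    apply le_of_eq
    calc _ = (sg u σ * sg u σ) * (sg w σ * sg w σ) * (sg w' σ * sg w' σ) := by ring
      _ = 1 := by rw [s1, s2, s3]; norm_num
  · -- σ ≠ σ'
    have huu : u ≠ u' := by
      rintro rfl
      apply hss
      have : (insert u σ).erase u = (insert u σ').erase u := by rw [← hτu, ← hτu']
      rwa [erase_insert hu, erase_insert hu'] at this
    -- κ = σ.erase u'
    have hu'σ : u' ∈ σ := by
      have : u' ∈ insert u σ := by rw [← hτu, hτu']; exact mem_insert_self _ _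
      rw [mem_insert] at this
      exact this.resolve_left huu.symm
    have hκ : σ = insert u' (σ.erase u') := (insert_erase hu'σ).symm
    have huκ : u ∉ σ.erase u' := fun h => hu (mem_of_mem_erase h)
    have hu'κ : u' ∉ σ.erase u' := by simp
    have hσ'e : σ' = insert u (σ.erase u') := by
      have e : σ' = τ.erase u' := by rw [hτu', erase_insert hu']
      rw [e, hτu, erase_insert_of_ne huu]
    have hwu : w ≠ u := huw.symm
    have hw'u' : w' ≠ u' := huw'.symm
    have hwκ : w ∉ σ.erase u' := fun h => hw (mem_of_mem_erase h)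
    have hwu' : w ≠ u' := by
      rintro rfl
      exact hw hu'σ
    have hw'κ : w' ∉ σ.erase u' := by
      intro h
      apply hw'
      rw [hσ'e]
      exact mem_insert_of_mem h
    have hw'u : w' ≠ u := by
      rintro rfl
      apply hw'
      rw [hσ'e]
      exact mem_insert_self _ _
    by_cases hww : w = w'
    · subst hww
      have t1 : τ = insert u (insert u' (σ.erase u')) := by rw [hτu]; rw [← hκ]
      have t2 : τ' = insert w (insert u' (σ.erase u')) := by rw [hτ'w]; rw [← hκ]
      have t3 : τ'' = insert w (insert u (σ.erase u')) := by rw [hτ'w', hσ'e]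
      rw [t1, t2, t3, gram_triangle huκ hu'κ hwκ huu huw hwu'.symm]
      norm_num
    · have : gram τ' τ'' = 0 := by
        by_contra hc
        have hcd := (adj_iff hτ' hτ'' h3).mpr hc
        have hint : τ' ∩ τ'' ⊆ σ.erase u' := by
          intro x hx
          rw [mem_inter, hτ'w, hτ'w', hσ'e] at hx
          obtain ⟨hx1, hx2⟩ := hx
          rw [mem_insert] at hx1
          rw [mem_insert, mem_insert] at hx2
          rcases hx2 with rfl | rfl | hx2
          · rcases hx1 with h | h
            · exact absurd h.symm hww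
            · exact mem_erase.mpr ⟨hw'u', h⟩
          · rcases hx1 with h | h
            · exact absurd h huw
            · exact absurd h hu
          · exact hx2
        have := card_le_card hint
        rw [card_erase_of_mem hu'σ, hcd, hσ] at this
        have hpos : 0 < σ.card := card_pos.mpr ⟨u', hu'σ⟩
        omega
      rw [this, mul_zero]

end Pool.Agent.Lib.MP_9701dc_gt
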