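import Mathlib

set_option autoImplicit false

/-!
# A nonsingular minor of maximal size bounds the torsion of the cokernel
-/

namespace Pool.Agent.Lib.MP_9701dc_gt.Minor

open Matrix Finset

variable {R C : Type} [Fintype R] [Fintype C] [DecidableEq R] [DecidableEq C]

/-- A column basis, and rows on which it is nonsingular. -/
theorem exists_minor (B : Matrix R C ℚ) :
    ∃ (s : Set C) (ρ : s → R), Function.Injective ρ ∧ Nat.card s = B.rank ∧
      (∀ x : R → ℚ, x ∈ Submodule.span ℚ (Set.range B.col) →
        ∃ b : s → ℚ, x = fun r => ∑ᶠ i : s, b i * B r i.1) ∧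
      ∀ b : s → ℚ, (∀ j : s, ∑ᶠ i : s, b i * B (ρ j) i.1 = 0) → b = 0 := by
  classical
  obtain ⟨s, -, -, hspan, hli⟩ := exists_linearIndepOn_extension
    (linearIndepOn_empty ℚ B.col) (Set.empty_subset Set.univ)
  have : Fintype s := Fintype.ofFinite s
  have hspan' : Submodule.span ℚ (Set.range B.col) = Submodule.span ℚ (Set.range fun i : s => B.col i) := by
    apply le_antisymm
    · rw [Submodule.span_le]
      rintro _ ⟨c, rfl⟩
      have := hspan ⟨c, Set.mem_univ c, rfl⟩
      rwa [Set.image_eq_range] at this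
    · apply Submodule.span_mono
      rintro _ ⟨c, rfl⟩
      exact ⟨c.1, rfl⟩
  have hrank : B.rank = Fintype.card s := by
    rw [Matrix.rank_eq_finrank_span_cols, hspan']
    exact finrank_span_eq_card hli
  let N : Matrix R s ℚ := B.submatrix id Subtype.val
  have hNrank : N.rank = Fintype.card s := by
    rw [Matrix.rank_eq_finrank_span_cols]
    exact finrank_span_eq_card hli
  have hrow : Submodule.span ℚ (Set.range N.row) = ⊤ := by
    apply Submodule.eq_top_of_finrank_eq
    rw [← Matrix.rank_eq_finrank_span_row, hNrank, Module.finrank_fintype_fun_eq_card]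
  obtain ⟨t, -, -, htspan, htli⟩ := exists_linearIndepOn_extension
    (linearIndepOn_empty ℚ N.row) (Set.empty_subset Set.univ)
  have htop : (⊤ : Submodule ℚ (s → ℚ)) ≤ Submodule.span ℚ (Set.range fun r : t => N.row r) := by
    rw [← hrow, Submodule.span_le]
    rintro _ ⟨r, rfl⟩
    have := htspan ⟨r, Set.mem_univ r, rfl⟩
    rwa [Set.image_eq_range] at this
  let b : Module.Basis t ℚ (s → ℚ) := Module.Basis.mk htli htop
  have hb : ∀ i, b i = N.row i := fun i => Module.Basis.mk_apply _ _ _
  let e : s ≃ t := (Pi.basisFun ℚ s).indexEquiv b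
  refine ⟨s, fun i => (e i).1, ?_, ?_, ?_, ?_⟩
  · intro i j h
    exact e.injective (Subtype.ext h)
  · rw [hrank, Nat.card_eq_fintype_card]
  · intro x hx
    rw [hspan', Submodule.mem_span_range_iff_exists_fun] at hx
    obtain ⟨b', hb'⟩ := hx
    refine ⟨b', ?_⟩
    funext r
    rw [finsum_eq_sum_of_fintype, ← hb']
    simp only [Finset.sum_apply, Pi.smul_apply, smul_eq_mul]
    rfl
  · intro b' hb'
    -- the functional v ↦ ∑ b' v vanishes on the basis, hence everywhere
    have h1 : ∀ v : s → ℚ, ∑ i, b' i * v i = 0 := by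
      intro v
      have hv : v ∈ Submodule.span ℚ (Set.range fun r : t => N.row r) := htop trivial
      induction hv using Submodule.span_induction with
      | mem v hv =>
        obtain ⟨r, rfl⟩ := hv
        have := hb' (e.symm r)
        rw [finsum_eq_sum_of_fintype] at this
        simp only [Equiv.apply_symm_apply] at this
        exact this
      | zero => simp
      | add v w _ _ hv hw =>
        simp only [Pi.add_apply, mul_add, Finset.sum_add_distrib, hv, hw, add_zero]
      | smul a v _ hv =>
        have : ∑ i, b' i * (a • v) i = a * ∑ i, b' i * v i := by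
          rw [Finset.mul_sum]
          refine Finset.sum_congr rfl fun i _ => ?_
          rw [Pi.smul_apply, smul_eq_mul]; ring
        rw [this, hv, mul_zero]
    funext i
    have := h1 (Pi.single i 1)
    simpa [Pi.single_apply] using this

/-- An integral matrix: a nonsingular square minor whose size is the rank; a vector which becomes
an integral combination of columns after multiplication by `k` and which agrees on the rows of the
minor with an integral combination of the columns of the minor is this combination. -/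
theorem exists_int_minor (B : Matrix R C ℤ) :
    ∃ (s : Set C) (ρ : s → R), Function.Injective ρ ∧
      Nat.card s = (B.map (Int.cast : ℤ → ℚ)).rank ∧
      (∀ b : s → ℚ, (∀ j : s, ∑ᶠ i : s, b i * (B (ρ j) i.1 : ℚ) = 0) → b = 0) ∧
      ∀ (x : R → ℤ) (k : ℤ) (c : C → ℤ) (a : s → ℤ), k ≠ 0 → (∀ r, k * x r = ∑ j, B r j * c j) →
        (∀ j : s, x (ρ j) = ∑ᶠ i : s, a i * B (ρ j) i.1) →
        ∀ r, x r = ∑ᶠ i : s, a i * B r i.1 := by
  classical
  obtain ⟨s, ρ, h1, h2, h3, h4⟩ := exists_minor (B.map (Int.cast : ℤ → ℚ))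
  have : Fintype s := Fintype.ofFinite s
  refine ⟨s, ρ, h1, h2, h4, ?_⟩
  intro x k c a hk hx ha
  have hk' : (k : ℚ) ≠ 0 := by exact_mod_cast hk
  -- the difference
  let y : R → ℚ := fun r => (k : ℚ) * ((x r : ℚ) - ∑ i : s, (a i : ℚ) * (B r i.1 : ℚ))
  have hy : y ∈ Submodule.span ℚ (Set.range (B.map (Int.cast : ℤ → ℚ)).col) := by
    have e : y = ∑ j, ((c j : ℚ) - (if h : j ∈ s then (k : ℚ) * a ⟨j, h⟩ else 0)) •
        (B.map (Int.cast : ℤ → ℚ)).col j := by
      funext r
      simp only [Finset.sum_apply, Pi.smul_apply, smul_eq_mul, y]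
      have e1 : (k : ℚ) * (x r : ℚ) = ∑ j, (B r j : ℚ) * (c j : ℚ) := by
        exact_mod_cast hx r
      have e2 : ∑ i : s, (a i : ℚ) * (B r i.1 : ℚ) =
          ∑ j, (if h : j ∈ s then (a ⟨j, h⟩ : ℚ) else 0) * (B r j : ℚ) := by
        have e3 : ∑ j, (if h : j ∈ s then (a ⟨j, h⟩ : ℚ) else 0) * (B r j : ℚ) =
            ∑ j ∈ univ.filter (fun j => j ∈ s),
              (if h : j ∈ s then (a ⟨j, h⟩ : ℚ) else 0) * (B r j : ℚ) := by
          symm
          refine Finset.sum_subset (Finset.subset_univ _) fun j _ hj => ?_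
          rw [dif_neg (by simpa using hj), zero_mul]
        rw [e3, Finset.sum_subtype (univ.filter (fun j => j ∈ s)) (p := fun j => j ∈ s) (by simp)]
        refine Finset.sum_congr rfl fun i _ => ?_
        rw [dif_pos i.2]
      rw [mul_sub, e1, e2, Finset.mul_sum, ← Finset.sum_sub_distrib]
      refine Finset.sum_congr rfl fun j _ => ?_
      change _ = _ * (B r j : ℚ)
      split_ifs <;> ring
    rw [e]
    exact Submodule.sum_mem _ fun j _ => Submodule.smul_mem _ _ (Submodule.subset_span ⟨j, rfl⟩)
  obtain ⟨b, hb⟩ := h3 y hy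
  have hb0 : b = 0 := by
    apply h4
    intro j
    have e1 := congrFun hb (ρ j)
    have e2 : y (ρ j) = 0 := by
      simp only [y]
      have := ha j
      rw [finsum_eq_sum_of_fintype] at this
      rw [this]
      push_cast
      ring
    rw [e2] at e1
    exact e1.symm
  intro r
  have e1 := congrFun hb r
  rw [hb0] at e1
  simp only [Pi.zero_apply, zero_mul, finsum_zero, y] at e1
  have e2 := (mul_eq_zero.mp e1).resolve_left hk'
  rw [finsum_eq_sum_of_fintype]
  have e3 : (x r : ℚ) = ∑ i : s, (a i : ℚ) * (B r i.1 : ℚ) := by linarith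
  exact_mod_cast e3

end Pool.Agent.Lib.MP_9701dc_gt.Minor
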