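import Mathlib

set_option autoImplicit false

/-!
# Determinants of matrices with a slot structure

The rows of a square matrix are divided into `q` classes. Two columns which meet the same row of
class `i` have the same labels except for the label number `i`, and these are different. Then the
determinant satisfies a bound of Bregman type.
-/

namespace Pool.Agent.Lib.MP_9701dc_gt.Partite

open Matrix Finset

variable {ι : Type*} [Fintype ι] [DecidableEq ι]

/-- Hadamard inequality, `Fin n` version. -/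
theorem had_fin {n : ℕ} (M : Matrix (Fin n) (Fin n) ℝ) : M.det ^ 2 ≤ ∏ i, ∑ j, M i j ^ 2 := by
  let b := EuclideanSpace.basisFun (Fin n) ℝ
  have : Fact (Module.finrank ℝ (EuclideanSpace ℝ (Fin n)) = n) := ⟨by simp⟩
  let o := b.toBasis.orientation
  let v : Fin n → EuclideanSpace ℝ (Fin n) := fun i => WithLp.toLp 2 (M i)
  have h1 := o.abs_volumeForm_apply_le v
  rw [o.volumeForm_robust b rfl] at h1
  have h2 : b.toBasis.det v = M.det := by
    rw [Module.Basis.det_apply, ← Matrix.det_transpose]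
    congr 1
  rw [h2] at h1
  have h3 : |M.det| ^ 2 ≤ (∏ i, ‖v i‖) ^ 2 := pow_le_pow_left₀ (abs_nonneg _) h1 2
  rw [sq_abs, ← Finset.prod_pow] at h3
  refine h3.trans (le_of_eq ?_)
  apply Finset.prod_congr rfl
  intro i _
  rw [EuclideanSpace.norm_sq_eq]
  apply Finset.sum_congr rfl
  intro j _
  rw [Real.norm_eq_abs, sq_abs]

/-- Hadamard inequality. -/
theorem had (M : Matrix ι ι ℝ) : M.det ^ 2 ≤ ∏ i, ∑ j, M i j ^ 2 := by
  let e := Fintype.equivFin ι
  have h1 := had_fin (M.submatrix e.symm e.symm)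
  rw [Matrix.det_submatrix_equiv_self] at h1
  refine h1.trans (le_of_eq ?_)
  rw [← e.symm.prod_comp]
  apply Finset.prod_congr rfl
  intro i _
  rw [← e.symm.sum_comp]
  rfl

/-- The rows in `J`. -/
def AJ (A : Matrix ι ι ℝ) (J : Finset ι) : Matrix J ι ℝ := A.submatrix (fun r => r.1) id

/-- The Gram matrix of the rows in `J`. -/
def GJ (A : Matrix ι ι ℝ) (J : Finset ι) : Matrix J J ℝ := AJ A J * (AJ A J)ᵀ

/-- The projection off the span of the rows in `J`. -/
noncomputable def W (A : Matrix ι ι ℝ) (J : Finset ι) : Matrix ι ι ℝ :=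
  1 - (AJ A J)ᵀ * (GJ A J)⁻¹ * AJ A J

theorem vecMul_AJ (A : Matrix ι ι ℝ) (J : Finset ι) (v : J → ℝ) :
    v ᵥ* AJ A J = (fun r => if h : r ∈ J then v ⟨r, h⟩ else 0) ᵥ* A := by
  funext c
  simp only [Matrix.vecMul, dotProduct]
  rw [← Finset.sum_subset (Finset.subset_univ J) (fun r _ hr => by rw [dif_neg hr, zero_mul]),
    ← Finset.sum_coe_sort J]
  refine Finset.sum_congr rfl fun r _ => ?_
  rw [dif_pos r.2]
  rfl

theorem GJ_isUnit {A : Matrix ι ι ℝ} (hA : A.det ≠ 0) (J : Finset ι) : IsUnit (GJ A J).det := by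
  have hA' : IsUnit A := (Matrix.isUnit_iff_isUnit_det A).mpr (isUnit_iff_ne_zero.mpr hA)
  have hinj : Function.Injective fun v => v ᵥ* AJ A J := by
    intro v v' hv
    simp only [vecMul_AJ] at hv
    have h2 := (Matrix.vecMul_injective_iff_isUnit.mpr hA') hv
    funext r
    have h3 := congrFun h2 r.1
    simp only [dif_pos r.2] at h3
    exact h3
  have h := Matrix.PosDef.mul_conjTranspose_self (AJ A J) hinj
  rw [Matrix.conjTranspose_eq_transpose_of_trivial] at h
  exact isUnit_iff_ne_zero.mpr h.det_pos.ne'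

theorem GJ_transpose (A : Matrix ι ι ℝ) (J : Finset ι) : (GJ A J)ᵀ = GJ A J := by
  unfold GJ
  rw [Matrix.transpose_mul, Matrix.transpose_transpose]

theorem W_transpose (A : Matrix ι ι ℝ) (J : Finset ι) : (W A J)ᵀ = W A J := by
  unfold W
  rw [Matrix.transpose_sub, Matrix.transpose_one, Matrix.transpose_mul, Matrix.transpose_mul,
    Matrix.transpose_transpose, Matrix.transpose_nonsing_inv, GJ_transpose, Matrix.mul_assoc]

theorem W_sq {A : Matrix ι ι ℝ} (hA : A.det ≠ 0) (J : Finset ι) : W A J * W A J = W A J := by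
  have h1 : (AJ A J)ᵀ * (GJ A J)⁻¹ * AJ A J * ((AJ A J)ᵀ * (GJ A J)⁻¹ * AJ A J) =
      (AJ A J)ᵀ * (GJ A J)⁻¹ * AJ A J := by
    have h2 : (AJ A J)ᵀ * (GJ A J)⁻¹ * AJ A J * ((AJ A J)ᵀ * (GJ A J)⁻¹ * AJ A J) =
        (AJ A J)ᵀ * ((GJ A J)⁻¹ * (AJ A J * (AJ A J)ᵀ)) * (GJ A J)⁻¹ * AJ A J := by
      simp only [Matrix.mul_assoc]
    rw [h2]
    have h3 : (GJ A J)⁻¹ * (AJ A J * (AJ A J)ᵀ) = 1 :=
      Matrix.nonsing_inv_mul (GJ A J) (GJ_isUnit hA J)
    rw [h3, Matrix.mul_one]
  unfold W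
  rw [Matrix.sub_mul, Matrix.one_mul, Matrix.mul_sub, Matrix.mul_one, h1, sub_self, sub_zero]

theorem W_trace {A : Matrix ι ι ℝ} (hA : A.det ≠ 0) (J : Finset ι) :
    (W A J).trace = (Fintype.card ι : ℝ) - J.card := by
  unfold W
  rw [Matrix.trace_sub, Matrix.trace_one, Matrix.mul_assoc, Matrix.trace_mul_comm,
    Matrix.mul_assoc]
  have h3 : (GJ A J)⁻¹ * (AJ A J * (AJ A J)ᵀ) = 1 :=
    Matrix.nonsing_inv_mul (GJ A J) (GJ_isUnit hA J)
  rw [h3, Matrix.trace_one, Fintype.card_coe]

theorem W_diag_nonneg {A : Matrix ι ι ℝ} (hA : A.det ≠ 0) (J : Finset ι) (c : ι) :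
    0 ≤ W A J c c := by
  rw [← W_sq hA J, Matrix.mul_apply]
  refine Finset.sum_nonneg fun j _ => ?_
  have : W A J j c = W A J c j := congrFun (congrFun (W_transpose A J) c) j
  rw [this]
  exact mul_self_nonneg _

/-- If every row in `J` is supported either in `S` or off `S`, then the projection off the span of
these rows does not mix `S` with its complement. -/
theorem W_block {A : Matrix ι ι ℝ} (hA : A.det ≠ 0) (J : Finset ι) (S : Set ι)
    (hS : ∀ r ∈ J, ∀ c c', A r c ≠ 0 → A r c' ≠ 0 → c ∈ S → c' ∈ S) {c c' : ι} (hc : c ∈ S)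
    (hc' : c' ∉ S) : W A J c c' = 0 := by
  classical
  set P : Matrix ι ι ℝ := Matrix.diagonal fun c => if c ∈ S then 1 else 0 with hP
  set Q : Matrix J J ℝ := Matrix.diagonal fun r => if ∃ c, c ∈ S ∧ A r.1 c ≠ 0 then 1 else 0
    with hQ
  have hPt : Pᵀ = P := by rw [hP, Matrix.diagonal_transpose]
  have hQt : Qᵀ = Q := by rw [hQ, Matrix.diagonal_transpose]
  have e1 : AJ A J * P = Q * AJ A J := by
    ext r c
    rw [hP, hQ, Matrix.mul_diagonal, Matrix.diagonal_mul]
    change A r.1 c * _ = _ * A r.1 c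
    by_cases h0 : A r.1 c = 0
    · rw [h0]; ring
    · by_cases h1 : c ∈ S
      · rw [if_pos h1, if_pos ⟨c, h1, h0⟩]; ring
      · rw [if_neg h1, if_neg]
        · ring
        · rintro ⟨c1, hc1, hne⟩
          exact h1 (hS r.1 r.2 c1 c hne h0 hc1)
  have e2 : P * (AJ A J)ᵀ = (AJ A J)ᵀ * Q := by
    have := congrArg Matrix.transpose e1
    rw [Matrix.transpose_mul, Matrix.transpose_mul, hPt, hQt] at this
    exact this
  have e3 : GJ A J * Q = Q * GJ A J := by
    unfold GJ
    rw [Matrix.mul_assoc, ← e2, ← Matrix.mul_assoc, e1, Matrix.mul_assoc]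
  have hu := GJ_isUnit hA J
  have e4 : (GJ A J)⁻¹ * Q = Q * (GJ A J)⁻¹ := by
    calc (GJ A J)⁻¹ * Q = (GJ A J)⁻¹ * Q * (GJ A J * (GJ A J)⁻¹) := by
          rw [Matrix.mul_nonsing_inv _ hu, Matrix.mul_one]
      _ = (GJ A J)⁻¹ * (Q * GJ A J) * (GJ A J)⁻¹ := by simp only [Matrix.mul_assoc]
      _ = (GJ A J)⁻¹ * GJ A J * Q * (GJ A J)⁻¹ := by rw [← e3]; simp only [Matrix.mul_assoc]
      _ = Q * (GJ A J)⁻¹ := by rw [Matrix.nonsing_inv_mul _ hu, Matrix.one_mul]
  have e5 : W A J * P = P * W A J := by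
    unfold W
    rw [Matrix.sub_mul, Matrix.mul_sub, Matrix.one_mul, Matrix.mul_one]
    congr 1
    calc (AJ A J)ᵀ * (GJ A J)⁻¹ * AJ A J * P = (AJ A J)ᵀ * ((GJ A J)⁻¹ * (AJ A J * P)) := by
          simp only [Matrix.mul_assoc]
      _ = (AJ A J)ᵀ * ((GJ A J)⁻¹ * Q * AJ A J) := by rw [e1, Matrix.mul_assoc]
      _ = (AJ A J)ᵀ * Q * ((GJ A J)⁻¹ * AJ A J) := by rw [e4]; simp only [Matrix.mul_assoc]
      _ = P * ((AJ A J)ᵀ * (GJ A J)⁻¹ * AJ A J) := by rw [← e2]; simp only [Matrix.mul_assoc]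
  have h := congrFun (congrFun e5 c) c'
  rw [hP, Matrix.mul_diagonal, Matrix.diagonal_mul, if_neg hc', if_pos hc, mul_zero,
    one_mul] at h
  exact h.symm

/-- The squared norm of row `r` after projection off the rows in `J`. -/
noncomputable def wt (A : Matrix ι ι ℝ) (J : Finset ι) (r : ι) : ℝ :=
  ∑ c, ((A r) ᵥ* W A J) c ^ 2

theorem wt_eq {A : Matrix ι ι ℝ} (hA : A.det ≠ 0) (J : Finset ι) (r : ι) :
    wt A J r = ∑ c, ∑ c', A r c * W A J c c' * A r c' := by
  have h1 : wt A J r = ((A r) ᵥ* W A J) ⬝ᵥ ((A r) ᵥ* W A J) := by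
    unfold wt
    rw [dotProduct]
    exact Finset.sum_congr rfl fun c _ => by ring
  have h2 : ((A r) ᵥ* W A J) = W A J *ᵥ (A r) := by
    rw [← Matrix.mulVec_transpose, W_transpose]
  rw [h1]
  nth_rewrite 2 [h2]
  rw [Matrix.dotProduct_mulVec, Matrix.vecMul_vecMul, W_sq hA]
  simp only [dotProduct, Matrix.vecMul]
  rw [Finset.sum_comm]
  refine Finset.sum_congr rfl fun c _ => ?_
  rw [Finset.sum_mul]

theorem wt_le {A : Matrix ι ι ℝ} (hA : A.det ≠ 0) (J : Finset ι) (r : ι)
    (h1 : ∀ c, |A r c| ≤ 1)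
    (h : ∀ c c', A r c ≠ 0 → A r c' ≠ 0 → c ≠ c' → W A J c c' = 0) :
    wt A J r ≤ ∑ c, if A r c ≠ 0 then W A J c c else 0 := by
  rw [wt_eq hA]
  refine Finset.sum_le_sum fun c _ => ?_
  split_ifs with hc
  · rw [Finset.sum_eq_single c]
    · have h2 : A r c * W A J c c * A r c = (A r c) ^ 2 * W A J c c := by ring
      rw [h2]
      have h3 : (A r c) ^ 2 ≤ 1 := by
        rw [← sq_abs]
        exact pow_le_one₀ (abs_nonneg _) (h1 c)
      exact mul_le_of_le_one_left (W_diag_nonneg hA J c) h3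
    · intro c' _ hne
      by_cases h0 : A r c' = 0
      · rw [h0, mul_zero]
      · rw [h c c' hc h0 hne.symm, mul_zero, zero_mul]
    · intro h'
      exact absurd (Finset.mem_univ c) h'
  · rw [not_not] at hc
    rw [hc]
    simp

/-- The rows of smaller position. -/
def before (pos : ι → ℕ) (p : ℕ) : Finset ι := univ.filter fun r => pos r < p

/-- Projecting every row off the rows of smaller position does not change the determinant. -/
theorem det_project {A : Matrix ι ι ℝ} (pos : ι → ℕ) :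
    (Matrix.of fun r c => ((A r) ᵥ* W A (before pos (pos r))) c).det = A.det := by
  classical
  let coef : (r : ι) → (before pos (pos r) : Finset ι) → ℝ := fun r =>
    (A r) ᵥ* ((AJ A (before pos (pos r)))ᵀ * (GJ A (before pos (pos r)))⁻¹)
  let U : Matrix ι ι ℝ := Matrix.of fun r r' =>
    (if r = r' then 1 else 0) - (if h : r' ∈ before pos (pos r) then coef r ⟨r', h⟩ else 0)
  have hU : (Matrix.of fun r c => ((A r) ᵥ* W A (before pos (pos r))) c) = U * A := by
    ext r c
    rw [Matrix.mul_apply]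
    simp only [Matrix.of_apply, U]
    have h1 : (A r) ᵥ* W A (before pos (pos r)) = A r - (coef r) ᵥ* AJ A (before pos (pos r)) := by
      unfold W
      rw [Matrix.vecMul_sub, Matrix.vecMul_one]
      simp only [coef]
      rw [Matrix.vecMul_vecMul]
    rw [h1, vecMul_AJ]
    simp only [Pi.sub_apply, sub_mul, Finset.sum_sub_distrib]
    congr 1
    · simp
  have hdetU : U.det = 1 := by
    rw [← Matrix.det_transpose]
    have hbt : Uᵀ.BlockTriangular pos := by
      intro i j hij
      simp only [Matrix.transpose_apply, U, Matrix.of_apply]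
      have h1 : j ≠ i := by
        rintro rfl
        exact lt_irrefl _ hij
      rw [if_neg h1, dif_neg]
      · ring
      · simp only [before, Finset.mem_filter, Finset.mem_univ, true_and]
        omega
    rw [hbt.det]
    refine Finset.prod_eq_one fun a _ => ?_
    have : Uᵀ.toSquareBlock pos a = 1 := by
      ext i j
      have hi : pos i.1 = a := i.2
      have hj : pos j.1 = a := j.2
      change (if j.1 = i.1 then (1 : ℝ) else 0) -
        (if h : i.1 ∈ before pos (pos j.1) then coef j.1 ⟨i.1, h⟩ else 0) = _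
      rw [dif_neg]
      · rw [sub_zero, Matrix.one_apply]
        by_cases hij : i = j
        · rw [if_pos hij, if_pos (by rw [hij])]
        · rw [if_neg hij, if_neg]
          intro h
          exact hij (Subtype.ext h.symm)
      · simp only [before, Finset.mem_filter, Finset.mem_univ, true_and]
        omega
    rw [this, Matrix.det_one]
  rw [hU, Matrix.det_mul, hdetU, one_mul]

theorem det_sq_le {A : Matrix ι ι ℝ} (pos : ι → ℕ) :
    A.det ^ 2 ≤ ∏ r, wt A (before pos (pos r)) r := by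
  rw [← det_project (A := A) pos]
  exact had _

end Pool.Agent.Lib.MP_9701dc_gt.Partite
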