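import Pool.Agent.Lib.MP_9701dc_gt.Partite

set_option autoImplicit false

/-!
# The determinant bound for matrices with a slot structure
-/

namespace Pool.Agent.Lib.MP_9701dc_gt.Partite

open Matrix Finset

variable {ι : Type*} [Fintype ι] [DecidableEq ι]

theorem sum_val {q : ℕ} [NeZero q] (g : ℕ → ℝ) :
    ∑ x : ZMod q, g x.val = ∑ p ∈ range q, g p := by
  refine Finset.sum_nbij (fun x => x.val) ?_ ?_ ?_ ?_
  · intro x _
    exact Finset.mem_coe.mp (Finset.mem_coe.mpr (Finset.mem_range.mpr (ZMod.val_lt x)))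
  · intro x _ x' _ h
    exact ZMod.val_injective q h
  · intro p hp
    have hp' : p < q := Finset.mem_range.mp (Finset.mem_coe.mp hp)
    exact ⟨(p : ZMod q), Finset.mem_coe.mpr (Finset.mem_univ _), ZMod.val_natCast_of_lt hp'⟩
  · intro x _
    rfl

theorem sum_shift {q : ℕ} [NeZero q] (m : ZMod q) (g : ℕ → ℝ) :
    ∑ s : ZMod q, g (m - s).val = ∑ p ∈ range q, g p := by
  rw [← sum_val g]
  exact (Equiv.subLeft m).sum_comp (fun x : ZMod q => g x.val)

theorem sum_log {q a : ℕ} (ha : 0 < a) :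
    ∑ p ∈ range q, Real.log ((a : ℝ) * ((q : ℝ) - p)) =
      Real.log ((a : ℝ) ^ q * q.factorial) := by
  induction q with
  | zero => simp
  | succ q ih =>
    have ha' : (a : ℝ) ≠ 0 := by exact_mod_cast ha.ne'
    rw [Finset.sum_range_succ']
    have h1 : ∑ k ∈ range q, Real.log ((a : ℝ) * (((q + 1 : ℕ) : ℝ) - ((k + 1 : ℕ) : ℝ))) =
        ∑ k ∈ range q, Real.log ((a : ℝ) * ((q : ℝ) - k)) := by
      refine Finset.sum_congr rfl fun k _ => ?_
      congr 2
      push_cast
      ring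
    rw [h1, ih, ← Real.log_mul]
    · congr 1
      rw [Nat.factorial_succ]
      push_cast
      ring
    · have : (q.factorial : ℝ) ≠ 0 := by exact_mod_cast (Nat.factorial_pos q).ne'
      positivity
    · refine mul_ne_zero ha' ?_
      push_cast
      rw [sub_zero]
      positivity

section

variable {q : ℕ} [NeZero q] {a : ℕ} {L : Type*} {A : Matrix ι ι ℝ} {μ : ι → ZMod q}
  {y : ι → ZMod q → L}

/-- position of the class of row `r` in the cyclic order starting at `s` -/
def ps (μ : ι → ZMod q) (s : ZMod q) (r : ι) : ℕ := (μ r - s).val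

theorem ps_lt (s : ZMod q) (r : ι) : ps μ s r < q := ZMod.val_lt _

theorem class_of_ps {s : ZMod q} {r : ι} {p : ℕ} (h : ps μ s r = p) : μ r = s + (p : ZMod q) := by
  have h1 : ((μ r - s).val : ZMod q) = μ r - s := ZMod.natCast_zmod_val _
  unfold ps at h
  rw [h] at h1
  rw [h1]; ring

theorem block_zero (hA : A.det ≠ 0)
    (h2 : ∀ r c c', A r c ≠ 0 → A r c' ≠ 0 → c ≠ c' → y c (μ r) ≠ y c' (μ r))
    (h3 : ∀ r c c', A r c ≠ 0 → A r c' ≠ 0 → ∀ i, i ≠ μ r → y c i = y c' i)
    (s : ZMod q) (r : ι) (c c' : ι) (hc : A r c ≠ 0) (hc' : A r c' ≠ 0) (hne : c ≠ c') :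
    W A (before (ps μ s) (ps μ s r)) c c' = 0 := by
  refine W_block hA _ {c'' | y c'' (μ r) = y c (μ r)} ?_ rfl ?_
  · intro r' hr' c1 c2 hc1 hc2 hS
    have hr'' : ps μ s r' < ps μ s r := by
      simpa [before] using hr'
    have hμ : μ r ≠ μ r' := by
      intro h
      unfold ps at hr''
      rw [h] at hr''
      exact lt_irrefl _ hr''
    change y c2 (μ r) = y c (μ r)
    rw [← h3 r' c1 c2 hc1 hc2 (μ r) hμ]
    exact hS
  · intro h
    exact h2 r c c' hc hc' hne (Eq.symm h)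

theorem class_sum (hA : A.det ≠ 0) (h1 : ∀ r c, |A r c| ≤ 1)
    (h2 : ∀ r c c', A r c ≠ 0 → A r c' ≠ 0 → c ≠ c' → y c (μ r) ≠ y c' (μ r))
    (h3 : ∀ r c c', A r c ≠ 0 → A r c' ≠ 0 → ∀ i, i ≠ μ r → y c i = y c' i)
    (h4 : ∀ c i, (univ.filter (fun r => μ r = i ∧ A r c ≠ 0)).card ≤ a)
    (s : ZMod q) (p : ℕ) :
    ∑ r ∈ univ.filter (fun r => ps μ s r = p), wt A (before (ps μ s) (ps μ s r)) r ≤
      (a : ℝ) * ((Fintype.card ι : ℝ) - (before (ps μ s) p).card) := by
  calc ∑ r ∈ univ.filter (fun r => ps μ s r = p), wt A (before (ps μ s) (ps μ s r)) r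
      ≤ ∑ r ∈ univ.filter (fun r => ps μ s r = p),
          ∑ c, if A r c ≠ 0 then W A (before (ps μ s) p) c c else 0 := by
        refine Finset.sum_le_sum fun r hr => ?_
        have hr' : ps μ s r = p := by simpa using hr
        have := wt_le hA (before (ps μ s) (ps μ s r)) r (h1 r)
          (fun c c' hc hc' hne => block_zero hA h2 h3 s r c c' hc hc' hne)
        rw [hr'] at this
        rw [hr']
        exact this
    _ = ∑ c, ((univ.filter (fun r => ps μ s r = p ∧ A r c ≠ 0)).card : ℝ) *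
          W A (before (ps μ s) p) c c := by
        rw [Finset.sum_comm]
        refine Finset.sum_congr rfl fun c _ => ?_
        rw [← Finset.sum_filter, Finset.filter_filter, Finset.sum_const, nsmul_eq_mul]
    _ ≤ ∑ c, (a : ℝ) * W A (before (ps μ s) p) c c := by
        refine Finset.sum_le_sum fun c _ => ?_
        refine mul_le_mul_of_nonneg_right ?_ (W_diag_nonneg hA _ c)
        have h5 : (univ.filter (fun r => ps μ s r = p ∧ A r c ≠ 0)).card ≤
            (univ.filter (fun r => μ r = s + (p : ZMod q) ∧ A r c ≠ 0)).card := by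
          refine Finset.card_le_card fun r hr => ?_
          simp only [Finset.mem_filter, Finset.mem_univ, true_and] at hr ⊢
          exact ⟨class_of_ps hr.1, hr.2⟩
        exact_mod_cast h5.trans (h4 c _)
    _ = (a : ℝ) * ((Fintype.card ι : ℝ) - (before (ps μ s) p).card) := by
        rw [← Finset.mul_sum, ← W_trace hA (before (ps μ s) p)]
        rfl

theorem count_ge (s : ZMod q) (p : ℕ) :
    (Fintype.card ι : ℝ) - (before (ps μ s) p).card =
      ∑ r : ι, if p ≤ ps μ s r then (1 : ℝ) else 0 := by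
  have h1 : (before (ps μ s) p).card + (univ.filter fun r => ¬ ps μ s r < p).card =
      Fintype.card ι := by
    unfold before
    rw [Finset.card_filter_add_card_filter_not]
    rfl
  have h2 : (∑ r : ι, if p ≤ ps μ s r then (1 : ℝ) else 0) =
      (univ.filter fun r => ¬ ps μ s r < p).card := by
    rw [← Finset.sum_filter, Finset.sum_const, nsmul_eq_mul, mul_one]
    congr 2
    ext r
    simp
  rw [h2, ← h1]
  push_cast
  ring

theorem count_sum (m : ZMod q) {p : ℕ} (hp : p < q) :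
    (∑ s : ZMod q, if p ≤ (m - s).val then (1 : ℝ) else 0) = (q : ℝ) - p := by
  rw [sum_shift m (fun x => if p ≤ x then (1 : ℝ) else 0), ← Finset.sum_filter, Finset.sum_const,
    nsmul_eq_mul, mul_one]
  have h1 : (range q).filter (fun x => p ≤ x) = Finset.Ico p q := by
    ext x
    simp only [Finset.mem_filter, Finset.mem_range, Finset.mem_Ico]
    exact and_comm
  rw [h1, Nat.card_Ico, Nat.cast_sub hp.le]

theorem one_shift (ha : 0 < a) (hA : A.det ≠ 0) (h1 : ∀ r c, |A r c| ≤ 1)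
    (h2 : ∀ r c c', A r c ≠ 0 → A r c' ≠ 0 → c ≠ c' → y c (μ r) ≠ y c' (μ r))
    (h3 : ∀ r c c', A r c ≠ 0 → A r c' ≠ 0 → ∀ i, i ≠ μ r → y c i = y c' i)
    (h4 : ∀ c i, (univ.filter (fun r => μ r = i ∧ A r c ≠ 0)).card ≤ a)
    (s : ZMod q) :
    Real.log (A.det ^ 2) ≤ (∑ r : ι, Real.log ((a : ℝ) * ((q : ℝ) - ps μ s r))) -
      Fintype.card ι + ∑ p ∈ range q, (∑ r : ι, if p ≤ ps μ s r then (1 : ℝ) else 0) /
        ((q : ℝ) - p) := by
  have ha' : (0 : ℝ) < a := by exact_mod_cast ha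
  set w : ι → ℝ := fun r => wt A (before (ps μ s) (ps μ s r)) r with hw
  have hw0 : ∀ r, 0 ≤ w r := fun r => Finset.sum_nonneg fun c _ => sq_nonneg _
  have hprod : A.det ^ 2 ≤ ∏ r, w r := det_sq_le (ps μ s)
  have hdet : 0 < A.det ^ 2 := by positivity
  have hpos : ∀ r, 0 < w r := by
    intro r
    refine lt_of_le_of_ne (hw0 r) fun h => ?_
    have : ∏ r, w r = 0 := Finset.prod_eq_zero (Finset.mem_univ r) h.symm
    linarith
  have hC : ∀ r, (0 : ℝ) < (a : ℝ) * ((q : ℝ) - ps μ s r) := by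
    intro r
    have : (ps μ s r : ℝ) < q := by exact_mod_cast ps_lt (μ := μ) s r
    exact mul_pos ha' (by linarith)
  have hlog : Real.log (A.det ^ 2) ≤ ∑ r, Real.log (w r) := by
    rw [← Real.log_prod (fun r _ => (hpos r).ne')]
    exact Real.log_le_log hdet hprod
  have hterm : ∀ r, Real.log (w r) ≤ Real.log ((a : ℝ) * ((q : ℝ) - ps μ s r)) - 1 +
      w r / ((a : ℝ) * ((q : ℝ) - ps μ s r)) := by
    intro r
    have h5 := Real.log_le_sub_one_of_pos (div_pos (hpos r) (hC r))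
    rw [Real.log_div (hpos r).ne' (hC r).ne'] at h5
    linarith
  have hsum : ∑ r, w r / ((a : ℝ) * ((q : ℝ) - ps μ s r)) ≤
      ∑ p ∈ range q, (∑ r : ι, if p ≤ ps μ s r then (1 : ℝ) else 0) / ((q : ℝ) - p) := by
    have h6 : ∑ r, w r / ((a : ℝ) * ((q : ℝ) - ps μ s r)) =
        ∑ p ∈ range q, ∑ r ∈ univ.filter (fun r => ps μ s r = p),
          w r / ((a : ℝ) * ((q : ℝ) - ps μ s r)) := by
      rw [Finset.sum_fiberwise_of_maps_to]
      intro r _
      exact Finset.mem_range.mpr (ps_lt s r)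
    rw [h6]
    refine Finset.sum_le_sum fun p hp => ?_
    have hp' : p < q := Finset.mem_range.mp hp
    have hqp : (0 : ℝ) < (q : ℝ) - p := by
      have : (p : ℝ) < q := by exact_mod_cast hp'
      linarith
    have h7 : ∑ r ∈ univ.filter (fun r => ps μ s r = p),
        w r / ((a : ℝ) * ((q : ℝ) - ps μ s r)) =
        (∑ r ∈ univ.filter (fun r => ps μ s r = p), w r) / ((a : ℝ) * ((q : ℝ) - p)) := by
      rw [Finset.sum_div]
      refine Finset.sum_congr rfl fun r hr => ?_
      have hr' : ps μ s r = p := by simpa using hr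
      rw [hr']
    rw [h7, ← count_ge, div_le_div_iff₀ (mul_pos ha' hqp) hqp]
    have h8 := class_sum (a := a) hA h1 h2 h3 h4 s p
    calc (∑ r ∈ univ.filter (fun r => ps μ s r = p), w r) * ((q : ℝ) - p)
        ≤ ((a : ℝ) * ((Fintype.card ι : ℝ) - (before (ps μ s) p).card)) * ((q : ℝ) - p) :=
          mul_le_mul_of_nonneg_right h8 hqp.le
      _ = _ := by ring
  calc Real.log (A.det ^ 2) ≤ ∑ r, Real.log (w r) := hlog
    _ ≤ ∑ r, (Real.log ((a : ℝ) * ((q : ℝ) - ps μ s r)) - 1 +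
          w r / ((a : ℝ) * ((q : ℝ) - ps μ s r))) := Finset.sum_le_sum fun r _ => hterm r
    _ = (∑ r : ι, Real.log ((a : ℝ) * ((q : ℝ) - ps μ s r))) - Fintype.card ι +
          ∑ r, w r / ((a : ℝ) * ((q : ℝ) - ps μ s r)) := by
        rw [Finset.sum_add_distrib, Finset.sum_sub_distrib]
        simp
    _ ≤ _ := by linarith [hsum]

/-- The determinant bound. -/
theorem det_bound (ha : 0 < a) (h1 : ∀ r c, |A r c| ≤ 1)
    (h2 : ∀ r c c', A r c ≠ 0 → A r c' ≠ 0 → c ≠ c' → y c (μ r) ≠ y c' (μ r))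
    (h3 : ∀ r c c', A r c ≠ 0 → A r c' ≠ 0 → ∀ i, i ≠ μ r → y c i = y c' i)
    (h4 : ∀ c i, (univ.filter (fun r => μ r = i ∧ A r c ≠ 0)).card ≤ a) :
    A.det ^ (2 * q) ≤ ((a : ℝ) ^ q * q.factorial) ^ Fintype.card ι := by
  have hq : 0 < q := Nat.pos_of_ne_zero (NeZero.ne q)
  have hbase : (0 : ℝ) < (a : ℝ) ^ q * q.factorial := by
    have ha' : (0 : ℝ) < a := by exact_mod_cast ha
    have : (0 : ℝ) < q.factorial := by exact_mod_cast Nat.factorial_pos q
    positivity
  by_cases hA : A.det = 0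
  · rw [hA, zero_pow (by omega)]
    positivity
  have hkey : ∑ _s : ZMod q, Real.log (A.det ^ 2) ≤
      ∑ s : ZMod q, ((∑ r : ι, Real.log ((a : ℝ) * ((q : ℝ) - ps μ s r))) -
      Fintype.card ι + ∑ p ∈ range q, (∑ r : ι, if p ≤ ps μ s r then (1 : ℝ) else 0) /
        ((q : ℝ) - p)) :=
    Finset.sum_le_sum fun s _ => one_shift ha hA h1 h2 h3 h4 s
  have e1 : ∑ s : ZMod q, ∑ r : ι, Real.log ((a : ℝ) * ((q : ℝ) - ps μ s r)) =
      Fintype.card ι * Real.log ((a : ℝ) ^ q * q.factorial) := by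
    rw [Finset.sum_comm]
    have : ∀ r : ι, ∑ s : ZMod q, Real.log ((a : ℝ) * ((q : ℝ) - ps μ s r)) =
        Real.log ((a : ℝ) ^ q * q.factorial) := by
      intro r
      rw [← sum_log ha]
      exact sum_shift (μ r) (fun x => Real.log ((a : ℝ) * ((q : ℝ) - x)))
    rw [Finset.sum_congr rfl fun r _ => this r]
    simp
  have e2 : ∑ s : ZMod q, ∑ p ∈ range q, (∑ r : ι, if p ≤ ps μ s r then (1 : ℝ) else 0) /
        ((q : ℝ) - p) = q * Fintype.card ι := by
    rw [Finset.sum_comm]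
    have : ∀ p ∈ range q, ∑ s : ZMod q, (∑ r : ι, if p ≤ ps μ s r then (1 : ℝ) else 0) /
        ((q : ℝ) - p) = Fintype.card ι := by
      intro p hp
      have hp' : p < q := Finset.mem_range.mp hp
      have hqp : (0 : ℝ) < (q : ℝ) - p := by
        have : (p : ℝ) < q := by exact_mod_cast hp'
        linarith
      rw [← Finset.sum_div, Finset.sum_comm]
      have h5 : ∀ r : ι, (∑ s : ZMod q, if p ≤ ps μ s r then (1 : ℝ) else 0) = (q : ℝ) - p :=
        fun r => count_sum (μ r) hp'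
      rw [Finset.sum_congr rfl fun r _ => h5 r]
      simp only [Finset.sum_const, Finset.card_univ, nsmul_eq_mul]
      field_simp
    rw [Finset.sum_congr rfl this]
    simp
  have hcardZ : (Fintype.card (ZMod q) : ℝ) = q := by rw [ZMod.card]
  rw [Finset.sum_const, Finset.card_univ, nsmul_eq_mul, hcardZ, Finset.sum_add_distrib,
    Finset.sum_sub_distrib, e1, e2, Finset.sum_const, Finset.card_univ, nsmul_eq_mul,
    hcardZ] at hkey
  have hdet : 0 < A.det ^ 2 := by positivity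
  have hfin : Real.log (A.det ^ (2 * q)) ≤
      Real.log (((a : ℝ) ^ q * q.factorial) ^ Fintype.card ι) := by
    have e3 : Real.log ((A.det ^ 2) ^ q) = q * Real.log (A.det ^ 2) := by
      rw [Real.log_pow (A.det ^ 2) q]
    have e4 : Real.log (((a : ℝ) ^ q * q.factorial) ^ Fintype.card ι) =
        Fintype.card ι * Real.log ((a : ℝ) ^ q * q.factorial) := by
      rw [Real.log_pow ((a : ℝ) ^ q * q.factorial) (Fintype.card ι)]
    rw [pow_mul, e3, e4]
    linarith
  exact (Real.log_le_log_iff (by rw [pow_mul]; positivity) (by positivity)).mp hfin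

end

end Pool.Agent.Lib.MP_9701dc_gt.Partite
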